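import Mathlib

/-!
# A weakly mixing system and a set that never returns along `2 ^ n * 3 ^ k`

For a sequence `n 0, n 1, ...` of integers coprime to `5` with `n j ^ 3 ∣ n (j + 1)` (`Good n`)
we build periodic words `lab n j : ℤ → ZMod 5`.  With `h 0 = 1`, `h (j + 1) = n j ^ 3`:

* `lab n 0 t = t`, and `lab n (j + 1) t = lab n j (t + tri p)` where `p = blk (n j) t` is the index
  (modulo `n j ^ 2`) of the block of length `n j` containing `t`, and `tri p = 0 + 1 + ... + (p-1)`;
* `lab n j (t + m) = lab n j t + m` whenever `h j ∣ m` (`lab_add`), so the words have period `5 h j`;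
* the statistics of `lab n (j + 1)` on windows of length `L` differ from those of `lab n j` by at
  most `L / n j` (`fr_step`);
* `lab n (j + 1)` at times `t` and `t + n j` looks like two nearly independent samples of `lab n j`
  (`fr_mix`), because the successive displacements `tri (p + 1) - tri p = p` are equidistributed.

A limit measure `P` on `ℤ → ZMod 5` exists by compactness (`limit_measure`); it is shift-invariant,
mixing along `n j`, hence weakly mixing (`wm_of_mix`), and satisfies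
`P (ω s ≠ ω 0 + s) ≤ 2 s / n j` for every multiple `s` of `h j` (`system`).
Taking the product of four such systems (powers of `2` and of `3`, each with two interleaved
sequences of scales, so that every exponent is good for one of the two, `cover`), the set where all
four zeroth labels have prescribed values, minus the union of the exceptional sets, has positive
measure and never meets its translate by `2 ^ n * 3 ^ k`, since `5 ∤ 2 ^ n * 3 ^ k` (`assemble`,
`counterexample`).
-/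

set_option autoImplicit false
open MeasureTheory Filter Topology

namespace Pool.Agent.Helper765.F2c841

/-- triangular numbers -/
def tri (p : ℕ) : ℕ := ∑ i ∈ Finset.range p, i

/-- block index: which block of length `n` (modulo `n ^ 2` blocks) the time `t` is in -/
def blk (n : ℕ) (t : ℤ) : ℕ := ((t / (n : ℤ)) % ((n : ℤ) ^ 2)).toNat

/-- period (up to the factor 5) of the stage `j` word -/
def hh (n : ℕ → ℕ) : ℕ → ℕ
  | 0 => 1
  | j + 1 => n j ^ 3

/-- the stage `j` word -/
def lab (n : ℕ → ℕ) : ℕ → ℤ → ZMod 5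
  | 0, t => (t : ZMod 5)
  | j + 1, t => lab n j (t + (tri (blk (n j) t) : ℕ))

/-- average over `0 ≤ t < M` -/
noncomputable def avg (M : ℕ) (f : ℤ → ℝ) : ℝ := (∑ t ∈ Finset.range M, f (t : ℤ)) / M

/-- the event `E` depends only on the coordinates in `[-a, b]` -/
def Win (a b : ℕ) (E : Set (ℤ → ZMod 5)) : Prop :=
  ∀ ω ω' : ℤ → ZMod 5, (∀ x : ℤ, -(a : ℤ) ≤ x → x ≤ b → ω x = ω' x) → (ω ∈ E ↔ ω' ∈ E)

/-- frequency of the event `E` in the word `w` -/
noncomputable def fr (M : ℕ) (w : ℤ → ZMod 5) (E : Set (ℤ → ZMod 5)) : ℝ :=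
  avg M (fun t => E.indicator (fun _ => (1 : ℝ)) (fun x => w (t + x)))

structure Good (n : ℕ → ℕ) : Prop where
  two : ∀ j, 2 ≤ n j
  cop : ∀ j, Nat.Coprime (n j) 5
  dvd : ∀ j, n j ^ 3 ∣ n (j + 1)

lemma sum_step (M : ℕ) (f : ℤ → ℝ) (hf : ∀ t, f (t + M) = f t) :
    ∑ t ∈ Finset.range M, f ((t : ℤ) + 1) = ∑ t ∈ Finset.range M, f (t : ℤ) := by
  have h1 : ∑ t ∈ Finset.range (M + 1), f ((t : ℕ) : ℤ) =
      ∑ t ∈ Finset.range M, f (((t + 1 : ℕ)) : ℤ) + f ((0 : ℕ) : ℤ) :=
    Finset.sum_range_succ' (fun t : ℕ => f (t : ℤ)) M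
  have h2 : ∑ t ∈ Finset.range (M + 1), f ((t : ℕ) : ℤ) =
      ∑ t ∈ Finset.range M, f ((t : ℕ) : ℤ) + f ((M : ℕ) : ℤ) :=
    Finset.sum_range_succ (fun t : ℕ => f (t : ℤ)) M
  have h3 : f ((M : ℕ) : ℤ) = f ((0 : ℕ) : ℤ) := by
    have := hf 0
    simpa using this
  have h4 : ∀ t : ℕ, f (((t + 1 : ℕ)) : ℤ) = f ((t : ℤ) + 1) := by intro t; push_cast; rfl
  simp only [h4] at h1
  linarith

lemma sum_shift (M : ℕ) (f : ℤ → ℝ) (hf : ∀ t, f (t + M) = f t) (a : ℤ) :
    ∑ t ∈ Finset.range M, f ((t : ℤ) + a) = ∑ t ∈ Finset.range M, f (t : ℤ) := by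
  induction a using Int.induction_on with
  | zero => simp
  | succ i ih =>
    have h := sum_step M (fun t => f (t + i)) (by
      intro t
      have := hf (t + i)
      rw [← this]; congr 1; ring)
    have e : ∀ t : ℕ, f ((t : ℤ) + ((i : ℤ) + 1)) = f ((t : ℤ) + 1 + i) := by
      intro t; congr 1; ring
    simp only [e]
    rw [h, ih]
  | pred i ih =>
    have h := sum_step M (fun t => f (t + (-(i : ℤ) - 1))) (by
      intro t
      have := hf (t + (-(i : ℤ) - 1))
      rw [← this]; congr 1; ring)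
    have e : ∀ t : ℕ, f ((t : ℤ) + 1 + (-(i : ℤ) - 1)) = f ((t : ℤ) + (-(i : ℤ))) := by
      intro t; congr 1; ring
    simp only [e] at h
    rw [← h, ih]

theorem avg_shift (M : ℕ) (f : ℤ → ℝ) (hf : ∀ t, f (t + M) = f t) (a : ℤ) :
    avg M (fun t => f (t + a)) = avg M f := by
  unfold avg
  rw [sum_shift M f hf a]

lemma sum_blocks (H : ℕ) (f : ℤ → ℝ) (hf : ∀ t, f (t + H) = f t) (x : ℤ) (m : ℕ) :
    ∑ p ∈ Finset.range (m * H), f (x + p) = m * ∑ t ∈ Finset.range H, f (t : ℤ) := by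
  induction m with
  | zero => simp
  | succ m ih =>
    rw [show (m + 1) * H = m * H + H by ring, Finset.sum_range_add, ih]
    have h := sum_shift H f hf (x + (m * H : ℕ))
    have e : ∀ t : ℕ, f (x + ((m * H + t : ℕ) : ℤ)) = f ((t : ℤ) + (x + (m * H : ℕ))) := by
      intro t; congr 1; push_cast; ring
    simp only [e]
    rw [h]
    push_cast
    ring

theorem avg_long (H : ℕ) (hH : 0 < H) (q : ℕ) (hq : 0 < q) (f : ℤ → ℝ) (hf : ∀ t, f (t + H) = f t)
    (h0 : ∀ t, 0 ≤ f t) (h1 : ∀ t, f t ≤ 1) (x : ℤ) :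
    |(∑ p ∈ Finset.range q, f (x + p)) / q - avg H f| ≤ H / q := by
  obtain ⟨m, r, hr, hqr⟩ : ∃ m r : ℕ, r < H ∧ q = m * H + r :=
    ⟨q / H, q % H, Nat.mod_lt _ hH, by rw [mul_comm]; exact (Nat.div_add_mod q H).symm⟩
  have hHR : (0 : ℝ) < H := by exact_mod_cast hH
  have hqR : (0 : ℝ) < q := by exact_mod_cast hq
  set A : ℝ := avg H f with hA
  have hAeq : ∑ t ∈ Finset.range H, f (t : ℤ) = H * A := by
    rw [hA, avg]; field_simp
  have hA0 : 0 ≤ A := by
    rw [hA, avg]
    exact div_nonneg (Finset.sum_nonneg fun i _ => h0 _) hHR.le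
  have hA1 : A ≤ 1 := by
    rw [hA, avg, div_le_one hHR]
    calc ∑ t ∈ Finset.range H, f (t : ℤ) ≤ ∑ _t ∈ Finset.range H, (1 : ℝ) :=
          Finset.sum_le_sum fun i _ => h1 _
      _ = H := by simp
  have hsum : ∑ p ∈ Finset.range q, f (x + p) = m * (H * A) +
      ∑ p ∈ Finset.range r, f (x + ((m * H + p : ℕ) : ℤ)) := by
    rw [hqr, Finset.sum_range_add, sum_blocks H f hf x m, hAeq]
  set R : ℝ := ∑ p ∈ Finset.range r, f (x + ((m * H + p : ℕ) : ℤ)) with hR
  have hR0 : 0 ≤ R := Finset.sum_nonneg fun i _ => h0 _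
  have hR1 : R ≤ r := by
    calc R ≤ ∑ _p ∈ Finset.range r, (1 : ℝ) := Finset.sum_le_sum fun i _ => h1 _
      _ = r := by simp
  have hrH : (r : ℝ) ≤ H := by exact_mod_cast hr.le
  have hr0 : (0 : ℝ) ≤ r := by positivity
  have hqR' : (q : ℝ) = m * H + r := by rw [hqr]; push_cast; ring
  have hid : (∑ p ∈ Finset.range q, f (x + p)) / q - A = (R - r * A) / q := by
    rw [hsum]
    field_simp
    rw [hqR']
    ring
  rw [hid, abs_div, abs_of_pos hqR]
  apply div_le_div_of_nonneg_right _ hqR.le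
  rw [abs_le]
  constructor
  · nlinarith
  · nlinarith

lemma block_count (n a b : ℕ) :
    ∑ i ∈ Finset.range n, ((if i < a then (1 : ℝ) else 0) + (if n ≤ i + b then (1 : ℝ) else 0)) ≤
      (a : ℝ) + b := by
  rw [Finset.sum_add_distrib]
  apply add_le_add
  · rw [Finset.sum_boole]
    have : (Finset.filter (fun i => i < a) (Finset.range n)).card ≤ a := by
      calc (Finset.filter (fun i => i < a) (Finset.range n)).card ≤ (Finset.range a).card := by
            apply Finset.card_le_card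
            intro i hi
            simp only [Finset.mem_filter, Finset.mem_range] at hi ⊢
            exact hi.2
        _ = a := by simp
    exact_mod_cast this
  · rw [Finset.sum_boole]
    have : (Finset.filter (fun i => n ≤ i + b) (Finset.range n)).card ≤ b := by
      calc (Finset.filter (fun i => n ≤ i + b) (Finset.range n)).card
          ≤ (Finset.Ico (n - b) n).card := by
            apply Finset.card_le_card
            intro i hi
            simp only [Finset.mem_filter, Finset.mem_range, Finset.mem_Ico] at hi ⊢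
            omega
        _ ≤ b := by simp; omega
    exact_mod_cast this

lemma boundary_sum (n k a b : ℕ) (hn : 0 < n) (f g : ℤ → ℝ)
    (h : ∀ t : ℤ, (a : ℤ) ≤ t % n → t % n < (n : ℤ) - b → f t = g t)
    (h1 : ∀ t, |f t - g t| ≤ 1) :
    ∑ t ∈ Finset.range (n * k), |f (t : ℤ) - g (t : ℤ)| ≤ k * ((a : ℝ) + b) := by
  induction k with
  | zero => simp
  | succ k ih =>
    rw [show n * (k + 1) = n * k + n by ring, Finset.sum_range_add]
    have hb : ∑ i ∈ Finset.range n, |f ((n * k + i : ℕ) : ℤ) - g ((n * k + i : ℕ) : ℤ)| ≤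
        (a : ℝ) + b := by
      refine le_trans (Finset.sum_le_sum ?_) (block_count n a b)
      intro i hi
      have hi' := Finset.mem_range.1 hi
      have hmod : (((n * k + i : ℕ)) : ℤ) % n = i := by
        have : (n * k + i) % n = i := by
          rw [Nat.mul_add_mod]
          exact Nat.mod_eq_of_lt hi'
        exact_mod_cast this
      by_cases c1 : i < a
      · rw [if_pos c1]
        have : (0 : ℝ) ≤ if n ≤ i + b then (1 : ℝ) else 0 := by split_ifs <;> norm_num
        linarith [h1 ((n * k + i : ℕ) : ℤ)]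
      · by_cases c2 : n ≤ i + b
        · rw [if_neg c1, if_pos c2]
          linarith [h1 ((n * k + i : ℕ) : ℤ)]
        · rw [if_neg c1, if_neg c2]
          have he := h ((n * k + i : ℕ) : ℤ) (by rw [hmod]; omega) (by rw [hmod]; omega)
          rw [he]
          simp
    push_cast at ih hb ⊢
    linarith

theorem avg_boundary (n k a b : ℕ) (hn : 0 < n) (hk : 0 < k) (f g : ℤ → ℝ)
    (h : ∀ t : ℤ, (a : ℤ) ≤ t % n → t % n < (n : ℤ) - b → f t = g t)
    (h1 : ∀ t, |f t - g t| ≤ 1) :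
    |avg (n * k) f - avg (n * k) g| ≤ ((a : ℝ) + b) / n := by
  have hnR : (0 : ℝ) < n := by exact_mod_cast hn
  have hkR : (0 : ℝ) < k := by exact_mod_cast hk
  unfold avg
  rw [← sub_div, ← Finset.sum_sub_distrib, abs_div]
  have hpos : (0 : ℝ) < ((n * k : ℕ) : ℝ) := by push_cast; positivity
  rw [abs_of_pos hpos, div_le_div_iff₀ hpos hnR]
  have hs := boundary_sum n k a b hn f g h h1
  have h2 : |∑ t ∈ Finset.range (n * k), (f (t : ℤ) - g (t : ℤ))| ≤ k * ((a : ℝ) + b) :=
    le_trans (Finset.abs_sum_le_sum_abs _ _) hs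
  push_cast
  nlinarith

lemma sum_mul_range (a b : ℕ) (F : ℕ → ℝ) :
    ∑ t ∈ Finset.range (a * b), F t =
      ∑ i ∈ Finset.range a, ∑ j ∈ Finset.range b, F (i * b + j) := by
  induction a with
  | zero => simp
  | succ a ih =>
    rw [Finset.sum_range_succ, ← ih, Nat.succ_mul, Finset.sum_range_add]

lemma perm5 (φ : ℤ → ℝ) (hφ : ∀ z, φ (z + 5) = φ z) (c : ℕ) (hc : Nat.Coprime c 5) :
    ∑ i ∈ Finset.range 5, φ ((i : ℤ) * c) = ∑ i ∈ Finset.range 5, φ (i : ℤ) := by
  have hper : Function.Periodic φ 5 := hφ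
  have hmod : ∀ z : ℤ, φ z = φ (z % 5) := by
    intro z
    have h1 : z = z % 5 + (z / 5) * 5 := by omega
    have h2 := hper.int_mul (z / 5) (z % 5)
    have h3 : z % 5 + ((z / 5 : ℤ) : ℤ) * 5 = z := by omega
    rw [Int.cast_id, h3] at h2
    exact h2
  have hr : c % 5 ≠ 0 := by
    intro h0
    have : 5 ∣ Nat.gcd c 5 := Nat.dvd_gcd (Nat.dvd_of_mod_eq_zero h0) (dvd_refl 5)
    rw [hc] at this
    omega
  have hlt : c % 5 < 5 := Nat.mod_lt _ (by norm_num)
  have key : ∀ i : ℕ, φ ((i : ℤ) * c) = φ (((i * (c % 5)) % 5 : ℕ) : ℤ) := by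
    intro i
    rw [hmod ((i : ℤ) * c)]
    congr 1
    push_cast
    rw [Int.mul_emod, Int.mul_emod (i : ℤ) ((c : ℤ) % 5), Int.emod_emod]
  simp only [key]
  generalize c % 5 = r at hr hlt
  interval_cases r
  · exact absurd rfl hr
  all_goals
    simp only [Finset.sum_range_succ, Finset.sum_range_zero]
    try norm_num
    try ring

theorem avg_block (n h : ℕ) (hn : 0 < n) (hcop : Nat.Coprime n 5) (hh : h ∣ n)
    (g : ℕ → ℤ → ℝ) (hg : ∀ p t, g p (t + (5 * h : ℕ)) = g p t) :
    avg (5 * n ^ 3) (fun t => g (blk n t) t) =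
      (∑ p ∈ Finset.range (n ^ 2), avg (5 * h) (g p)) / (n : ℝ) ^ 2 := by
  obtain ⟨m, hm⟩ := hh
  have hh0 : 0 < h := Nat.pos_of_ne_zero (by rintro rfl; simp at hm; omega)
  have hm0 : 0 < m := Nat.pos_of_ne_zero (by rintro rfl; simp at hm; omega)
  have hblk : ∀ i p τ : ℕ, p < n ^ 2 → τ < n →
      blk n ((i * n ^ 3 + (p * n + τ) : ℕ) : ℤ) = p := by
    intro i p τ hp hτ
    unfold blk
    have h1 : (((i * n ^ 3 + (p * n + τ) : ℕ) : ℤ)) / (n : ℤ) = ((i * n ^ 2 + p : ℕ) : ℤ) := by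
      rw [← Int.natCast_ediv]
      congr 1
      have : i * n ^ 3 + (p * n + τ) = n * (i * n ^ 2 + p) + τ := by ring
      rw [this, Nat.mul_add_div hn, Nat.div_eq_of_lt hτ, add_zero]
    rw [h1]
    have h2 : ((i * n ^ 2 + p : ℕ) : ℤ) % ((n : ℤ) ^ 2) = ((i * n ^ 2 + p) % n ^ 2 : ℕ) := by
      push_cast; rfl
    rw [h2, Int.toNat_natCast]
    rw [Nat.add_comm, Nat.add_mul_mod_self_right, Nat.mod_eq_of_lt hp]
  -- the sum for a fixed block
  have hS : ∀ p : ℕ, ∑ i ∈ Finset.range 5, ∑ τ ∈ Finset.range n,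
      g p ((i * n ^ 3 + (p * n + τ) : ℕ) : ℤ) =
      m * ∑ t ∈ Finset.range (5 * h), g p (t : ℤ) := by
    intro p
    set G := g p with hG
    have hGp : ∀ t, G (t + 5 * h) = G t := by
      intro t
      have := hg p t
      push_cast at this
      exact this
    set c := h ^ 2 * m ^ 3 with hcdef
    have hcn : n ^ 3 = h * c := by rw [hm, hcdef]; ring
    have hcc : Nat.Coprime c 5 := by
      rw [hm] at hcop
      have h1 : Nat.Coprime h 5 := Nat.Coprime.coprime_mul_right hcop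
      have h2 : Nat.Coprime m 5 := Nat.Coprime.coprime_mul_left hcop
      exact Nat.Coprime.mul_left (h1.pow_left 2) (h2.pow_left 3)
    have hK : ∀ x : ℤ, ∑ i ∈ Finset.range 5, G ((i : ℤ) * (h * c) + x) =
        ∑ i ∈ Finset.range 5, G ((i : ℤ) * h + x) := by
      intro x
      have := perm5 (fun z => G (z * h + x)) (by
        intro z
        have := hGp (z * h + x)
        rw [← this]
        congr 1
        ring) c hcc
      rw [← this]
      refine Finset.sum_congr rfl fun i _ => ?_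
      congr 1
      ring
    have hKper : ∀ x : ℤ, ∑ i ∈ Finset.range 5, G ((i : ℤ) * h + (x + h)) =
        ∑ i ∈ Finset.range 5, G ((i : ℤ) * h + x) := by
      intro x
      simp only [Finset.sum_range_succ, Finset.sum_range_zero]
      have h5 := hGp x
      push_cast
      rw [show (0 : ℤ) * h + (x + h) = 1 * h + x by ring,
        show (1 : ℤ) * h + (x + h) = 2 * h + x by ring,
        show (2 : ℤ) * h + (x + h) = 3 * h + x by ring,
        show (3 : ℤ) * h + (x + h) = 4 * h + x by ring,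
        show (4 : ℤ) * h + (x + h) = x + 5 * h by ring, h5,
        show (0 : ℤ) * h + x = x by ring]
      ring
    have hKper2 : ∀ (j : ℕ) (x : ℤ), ∑ i ∈ Finset.range 5, G ((i : ℤ) * h + (x + j * h)) =
        ∑ i ∈ Finset.range 5, G ((i : ℤ) * h + x) := by
      intro j
      induction j with
      | zero => intro x; simp
      | succ j ih =>
        intro x
        rw [← ih x, ← hKper (x + j * h)]
        refine Finset.sum_congr rfl fun i _ => ?_
        congr 1
        push_cast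
        ring
    rw [Finset.sum_comm]
    have e1 : ∀ τ ∈ Finset.range n, ∑ i ∈ Finset.range 5,
        G ((i * n ^ 3 + (p * n + τ) : ℕ) : ℤ) =
        ∑ i ∈ Finset.range 5, G ((i : ℤ) * h + (τ : ℤ)) := by
      intro τ _
      rw [← hKper2 (p * m) (τ : ℤ), ← hK]
      refine Finset.sum_congr rfl fun i _ => ?_
      congr 1
      rw [hcn]
      push_cast
      rw [hm]
      push_cast
      ring
    rw [Finset.sum_congr rfl e1]
    have e2 : ∑ τ ∈ Finset.range n, ∑ i ∈ Finset.range 5, G ((i : ℤ) * h + (τ : ℤ)) =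
        ∑ j ∈ Finset.range m, ∑ s ∈ Finset.range h,
          ∑ i ∈ Finset.range 5, G ((i : ℤ) * h + (s : ℤ)) := by
      have := sum_mul_range m h (fun τ => ∑ i ∈ Finset.range 5, G ((i : ℤ) * h + (τ : ℤ)))
      rw [show n = m * h by rw [hm, Nat.mul_comm], this]
      refine Finset.sum_congr rfl fun j _ => Finset.sum_congr rfl fun s _ => ?_
      rw [← hKper2 j (s : ℤ)]
      refine Finset.sum_congr rfl fun i _ => ?_
      congr 1
      push_cast
      ring
    rw [e2, Finset.sum_const, Finset.card_range, nsmul_eq_mul]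
    congr 1
    rw [sum_mul_range 5 h (fun t => G (t : ℤ)), Finset.sum_comm]
    refine Finset.sum_congr rfl fun i _ => Finset.sum_congr rfl fun s _ => ?_
    push_cast
    rfl
  unfold avg
  rw [show 5 * n ^ 3 = 5 * n ^ 3 from rfl, sum_mul_range 5 (n ^ 3)]
  have e3 : ∀ i ∈ Finset.range 5, ∑ j ∈ Finset.range (n ^ 3),
      g (blk n ((i * n ^ 3 + j : ℕ) : ℤ)) ((i * n ^ 3 + j : ℕ) : ℤ) =
      ∑ p ∈ Finset.range (n ^ 2), ∑ τ ∈ Finset.range n,
        g p ((i * n ^ 3 + (p * n + τ) : ℕ) : ℤ) := by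
    intro i _
    have := sum_mul_range (n ^ 2) n
      (fun j => g (blk n ((i * n ^ 3 + j : ℕ) : ℤ)) ((i * n ^ 3 + j : ℕ) : ℤ))
    rw [show n ^ 3 = n ^ 2 * n by ring]
    rw [show n ^ 3 = n ^ 2 * n by ring] at this
    rw [this]
    refine Finset.sum_congr rfl fun p hp => Finset.sum_congr rfl fun τ hτ => ?_
    have hb := hblk i p τ (Finset.mem_range.1 hp) (Finset.mem_range.1 hτ)
    rw [show n ^ 3 = n ^ 2 * n by ring] at hb
    rw [hb]
  rw [Finset.sum_congr rfl e3, Finset.sum_comm]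
  have e4 : ∑ p ∈ Finset.range (n ^ 2), ∑ i ∈ Finset.range 5, ∑ τ ∈ Finset.range n,
      g p ((i * n ^ 3 + (p * n + τ) : ℕ) : ℤ) =
      ∑ p ∈ Finset.range (n ^ 2), m * ∑ t ∈ Finset.range (5 * h), g p (t : ℤ) :=
    Finset.sum_congr rfl fun p _ => hS p
  rw [e4, ← Finset.mul_sum, ← Finset.sum_div]
  have hnr : (n : ℝ) = h * m := by exact_mod_cast hm
  have hhr : (h : ℝ) ≠ 0 := by exact_mod_cast hh0.ne'
  have hmr : (m : ℝ) ≠ 0 := by exact_mod_cast hm0.ne'
  push_cast
  rw [hnr]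
  field_simp

theorem blk_add (n : ℕ) (hn : 0 < n) (t x : ℤ) (h0 : 0 ≤ t % n + x) (h1 : t % n + x < n) :
    blk n (t + x) = blk n t := by
  unfold blk
  have hn' : (n : ℤ) ≠ 0 := by exact_mod_cast hn.ne'
  have h2 : (t + x) / (n : ℤ) = t / n := by
    have e : t + x = (t % n + x) + n * (t / n) := by
      have := Int.emod_add_mul_ediv t n
      linarith
    rw [e, Int.add_mul_ediv_left _ _ hn', Int.ediv_eq_zero_of_lt h0 h1, zero_add]
  rw [h2]

theorem blk_next (n : ℕ) (hn : 2 ≤ n) (t : ℤ) (h : blk n t + 1 < n ^ 2) :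
    blk n (t + n) = blk n t + 1 := by
  unfold blk at *
  have hn' : (n : ℤ) ≠ 0 := by positivity
  have h2 : (t + n) / (n : ℤ) = t / n + 1 := by
    rw [Int.add_ediv_of_dvd_right (dvd_refl _), Int.ediv_self hn']
  rw [h2]
  have hpos : (0 : ℤ) < (n : ℤ) ^ 2 := by positivity
  have h3 : 0 ≤ (t / (n : ℤ)) % ((n : ℤ) ^ 2) := Int.emod_nonneg _ hpos.ne'
  have h4 : (t / (n : ℤ)) % ((n : ℤ) ^ 2) + 1 < (n : ℤ) ^ 2 := by
    have : (((t / (n : ℤ)) % ((n : ℤ) ^ 2)).toNat : ℤ) + 1 < (n : ℤ) ^ 2 := by exact_mod_cast h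
    rwa [Int.toNat_of_nonneg h3] at this
  have h5 : (t / (n : ℤ) + 1) % ((n : ℤ) ^ 2) = (t / (n : ℤ)) % ((n : ℤ) ^ 2) + 1 := by
    rw [← Int.emod_add_emod, Int.emod_eq_of_lt (by omega) h4]
  rw [h5]
  omega

theorem blk_lt (n : ℕ) (hn : 0 < n) (t : ℤ) : blk n t < n ^ 2 := by
  unfold blk
  have hpos : (0 : ℤ) < (n : ℤ) ^ 2 := by positivity
  have h3 : 0 ≤ (t / (n : ℤ)) % ((n : ℤ) ^ 2) := Int.emod_nonneg _ hpos.ne'
  have h4 := Int.emod_lt_of_pos (t / (n : ℤ)) hpos
  have : (((t / (n : ℤ)) % ((n : ℤ) ^ 2)).toNat : ℤ) < ((n ^ 2 : ℕ) : ℤ) := by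
    rw [Int.toNat_of_nonneg h3]; push_cast; exact h4
  exact_mod_cast this

theorem hh_dvd (n : ℕ → ℕ) (hn : Good n) (j : ℕ) : hh n j ∣ n j := by
  cases j with
  | zero => exact one_dvd _
  | succ j => exact hn.dvd j

theorem hh_dvd_succ (n : ℕ → ℕ) (hn : Good n) (j : ℕ) : hh n j ∣ hh n (j + 1) := by
  show hh n j ∣ n j ^ 3
  exact (hh_dvd n hn j).trans (dvd_pow_self _ (by norm_num))

theorem blk_period (n : ℕ) (hn : 0 < n) (t m : ℤ) : blk n (t + (n ^ 3 : ℕ) * m) = blk n t := by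
  unfold blk
  have hn' : (n : ℤ) ≠ 0 := by exact_mod_cast hn.ne'
  have h2 : (t + (n ^ 3 : ℕ) * m) / (n : ℤ) = t / n + (n : ℤ) ^ 2 * m := by
    have e : t + ((n ^ 3 : ℕ) : ℤ) * m = t + n * ((n : ℤ) ^ 2 * m) := by push_cast; ring
    rw [e, Int.add_mul_ediv_left _ _ hn']
  rw [h2, Int.add_mul_emod_self_left]

/-- rigidity of the stage `j` word along the multiples of `hh n j` -/
theorem lab_add (n : ℕ → ℕ) (hn : Good n) (j : ℕ) (t m : ℤ) :
    lab n j (t + (hh n j : ℕ) * m) = lab n j t + (((hh n j : ℕ) * m : ℤ) : ZMod 5) := by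
  induction j generalizing t m with
  | zero =>
    show ((t + (hh n 0 : ℕ) * m : ℤ) : ZMod 5) = (t : ZMod 5) + _
    push_cast
    rfl
  | succ j ih =>
    have hpos : 0 < n j := lt_of_lt_of_le (by norm_num) (hn.two j)
    show lab n j (t + (hh n (j + 1) : ℕ) * m + (tri (blk (n j) (t + (hh n (j + 1) : ℕ) * m)) : ℕ)) =
      lab n j (t + (tri (blk (n j) t) : ℕ)) + _
    have h1 : blk (n j) (t + (hh n (j + 1) : ℕ) * m) = blk (n j) t := blk_period (n j) hpos t m
    rw [h1]
    obtain ⟨c, hc⟩ := hh_dvd_succ n hn j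
    rw [hc]
    have e : t + ((hh n j * c : ℕ) : ℤ) * m + (tri (blk (n j) t) : ℕ) =
      (t + (tri (blk (n j) t) : ℕ)) + (hh n j : ℕ) * (c * m) := by
      push_cast; ring
    rw [e, ih]
    congr 2
    push_cast; ring

theorem lab_period (n : ℕ → ℕ) (hn : Good n) (j : ℕ) (t : ℤ) :
    lab n j (t + (5 * hh n j : ℕ)) = lab n j t := by
  have e : t + ((5 * hh n j : ℕ) : ℤ) = t + (hh n j : ℕ) * 5 := by push_cast; ring
  rw [e, lab_add n hn j t 5]
  have h5 : (5 : ZMod 5) = 0 := by decide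
  push_cast
  rw [h5, mul_zero, add_zero]

theorem ind_congr (a b : ℕ) (E : Set (ℤ → ZMod 5)) (hE : Win a b E) (ω ω' : ℤ → ZMod 5)
    (h : ∀ x : ℤ, -(a : ℤ) ≤ x → x ≤ b → ω x = ω' x) :
    E.indicator (fun _ => (1 : ℝ)) ω = E.indicator (fun _ => (1 : ℝ)) ω' := by
  have := hE ω ω' h
  by_cases h1 : ω ∈ E
  · rw [Set.indicator_of_mem h1, Set.indicator_of_mem (this.1 h1)]
  · rw [Set.indicator_of_notMem h1, Set.indicator_of_notMem (fun h2 => h1 (this.2 h2))]

theorem ind_nonneg (E : Set (ℤ → ZMod 5)) (ω : ℤ → ZMod 5) :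
    0 ≤ E.indicator (fun _ => (1 : ℝ)) ω := Set.indicator_nonneg (fun _ _ => zero_le_one) _

theorem ind_le_one (E : Set (ℤ → ZMod 5)) (ω : ℤ → ZMod 5) :
    E.indicator (fun _ => (1 : ℝ)) ω ≤ 1 := by
  apply Set.indicator_le' (fun _ _ => le_refl _) (fun _ _ => zero_le_one)

theorem lab_good (n : ℕ → ℕ) (j a b : ℕ) (hpos : 0 < n j) (t : ℤ) (h0 : (a : ℤ) ≤ t % (n j))
    (h1 : t % (n j) < (n j : ℤ) - b) (x : ℤ) (hx0 : -(a : ℤ) ≤ x) (hx1 : x ≤ b) :
    lab n (j + 1) (t + x) = lab n j (t + x + (tri (blk (n j) t) : ℕ)) := by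
  show lab n j (t + x + (tri (blk (n j) (t + x)) : ℕ)) = _
  rw [blk_add (n j) hpos t x (by linarith) (by linarith)]

theorem abs_sub_le_one_of {x y : ℝ} (h0 : 0 ≤ x) (h1 : x ≤ 1) (h2 : 0 ≤ y) (h3 : y ≤ 1) :
    |x - y| ≤ 1 := by
  rw [abs_le]; constructor <;> linarith

theorem fr_step (n : ℕ → ℕ) (hn : Good n) (j a b : ℕ) (E : Set (ℤ → ZMod 5)) (hE : Win a b E) :
    |fr (5 * hh n (j + 1)) (lab n (j + 1)) E - fr (5 * hh n j) (lab n j) E| ≤
      ((a : ℝ) + b) / n j := by
  have hpos : 0 < n j := lt_of_lt_of_le (by norm_num) (hn.two j)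
  let g : ℕ → ℤ → ℝ := fun p t =>
    E.indicator (fun _ => (1 : ℝ)) (fun x => lab n j (t + x + (tri p : ℕ)))
  have hg : ∀ p t, g p (t + (5 * hh n j : ℕ)) = g p t := by
    intro p t
    apply ind_congr a b E hE
    intro x _ _
    have e : t + ((5 * hh n j : ℕ) : ℤ) + x + (tri p : ℕ) =
      (t + x + (tri p : ℕ)) + ((5 * hh n j : ℕ) : ℤ) := by ring
    rw [e, lab_period n hn]
  have h2 : avg (5 * hh n (j + 1)) (fun t => g (blk (n j) t) t) =
      fr (5 * hh n j) (lab n j) E := by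
    show avg (5 * n j ^ 3) _ = _
    rw [avg_block (n j) (hh n j) hpos (hn.cop j) (hh_dvd n hn j) g hg]
    have h3 : ∀ p, avg (5 * hh n j) (g p) = fr (5 * hh n j) (lab n j) E := by
      intro p
      have hs := avg_shift (5 * hh n j)
        (fun t => E.indicator (fun _ => (1 : ℝ)) (fun x => lab n j (t + x))) (by
          intro t
          apply ind_congr a b E hE
          intro x _ _
          have e : t + ((5 * hh n j : ℕ) : ℤ) + x = (t + x) + ((5 * hh n j : ℕ) : ℤ) := by ring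
          rw [e, lab_period n hn]) (tri p : ℕ)
      unfold fr
      rw [← hs]
      congr 1
      funext t
      show E.indicator (fun _ => (1 : ℝ)) (fun x => lab n j (t + x + (tri p : ℕ))) = _
      congr 1
      funext x
      congr 1
      ring
    rw [Finset.sum_congr rfl (fun p _ => h3 p), Finset.sum_const, Finset.card_range, nsmul_eq_mul]
    push_cast
    have : ((n j : ℝ)) ^ 2 ≠ 0 := by positivity
    field_simp
  rw [← h2]
  unfold fr
  have e5 : 5 * hh n (j + 1) = n j * (5 * n j ^ 2) := by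
    show 5 * n j ^ 3 = _
    ring
  rw [e5]
  apply avg_boundary (n j) (5 * n j ^ 2) a b hpos (by positivity)
  · intro t h0 h1
    apply ind_congr a b E hE
    intro x hx0 hx1
    exact lab_good n j a b hpos t h0 h1 x hx0 hx1
  · intro t
    exact abs_sub_le_one_of (ind_nonneg _ _) (ind_le_one _ _) (ind_nonneg _ _) (ind_le_one _ _)

theorem avg_mono_abs (M : ℕ) (f g e : ℤ → ℝ) (h : ∀ t, |f t - g t| ≤ e t) :
    |avg M f - avg M g| ≤ avg M e := by
  unfold avg
  rw [← sub_div, abs_div, ← Finset.sum_sub_distrib]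
  rw [abs_of_nonneg (Nat.cast_nonneg M : (0 : ℝ) ≤ M)]
  apply div_le_div_of_nonneg_right _ (Nat.cast_nonneg M)
  exact (Finset.abs_sum_le_sum_abs _ _).trans (Finset.sum_le_sum (fun t _ => h t))

theorem avg_const (M : ℕ) (hM : 0 < M) (c : ℝ) : avg M (fun _ => c) = c := by
  unfold avg
  rw [Finset.sum_const, Finset.card_range, nsmul_eq_mul]
  have : (M : ℝ) ≠ 0 := by positivity
  field_simp

theorem tri_succ (p : ℕ) : tri (p + 1) = tri p + p := by
  unfold tri
  rw [Finset.sum_range_succ]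

theorem hh_pos (n : ℕ → ℕ) (hn : Good n) (j : ℕ) : 0 < hh n j := by
  cases j with
  | zero => exact Nat.one_pos
  | succ j => exact pow_pos (lt_of_lt_of_le (by norm_num) (hn.two j)) 3

theorem fr_mix (n : ℕ → ℕ) (hn : Good n) (j a b : ℕ) (C D : Set (ℤ → ZMod 5)) (hC : Win a b C)
    (hD : Win a b D) :
    |fr (5 * hh n (j + 1)) (lab n (j + 1)) (C ∩ (fun ω x => ω (x + n j)) ⁻¹' D) -
        fr (5 * hh n j) (lab n j) C * fr (5 * hh n j) (lab n j) D| ≤
      ((a : ℝ) + b + 6) / n j := by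
  have hpos : 0 < n j := lt_of_lt_of_le (by norm_num) (hn.two j)
  have hposR : (0 : ℝ) < n j := by exact_mod_cast hpos
  have hhpos : 0 < hh n j := hh_pos n hn j
  let c1 : (ℤ → ZMod 5) → ℝ := C.indicator (fun _ => (1 : ℝ))
  let d1 : (ℤ → ZMod 5) → ℝ := D.indicator (fun _ => (1 : ℝ))
  let f : ℤ → ℝ := fun t => c1 (fun x => lab n (j + 1) (t + x)) *
    d1 (fun x => lab n (j + 1) (t + (x + n j)))
  let g : ℕ → ℤ → ℝ := fun p t => c1 (fun x => lab n j (t + x + (tri p : ℕ))) *
    d1 (fun x => lab n j (t + x + n j + (tri p : ℕ) + p))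
  let e : ℕ → ℤ → ℝ := fun p _ => if p + 1 = n j ^ 2 then 1 else 0
  have hc0 : ∀ ω, 0 ≤ c1 ω := ind_nonneg C
  have hc1 : ∀ ω, c1 ω ≤ 1 := ind_le_one C
  have hd0 : ∀ ω, 0 ≤ d1 ω := ind_nonneg D
  have hd1 : ∀ ω, d1 ω ≤ 1 := ind_le_one D
  have hf0 : ∀ t, 0 ≤ f t := fun t => mul_nonneg (hc0 _) (hd0 _)
  have hf1 : ∀ t, f t ≤ 1 := fun t => mul_le_one₀ (hc1 _) (hd0 _) (hd1 _)
  have hg0 : ∀ p t, 0 ≤ g p t := fun p t => mul_nonneg (hc0 _) (hd0 _)
  have hg1 : ∀ p t, g p t ≤ 1 := fun p t => mul_le_one₀ (hc1 _) (hd0 _) (hd1 _)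
  -- the first frequency
  have hfr : fr (5 * hh n (j + 1)) (lab n (j + 1)) (C ∩ (fun ω x => ω (x + n j)) ⁻¹' D) =
      avg (5 * hh n (j + 1)) f := by
    unfold fr
    congr 1
    funext t
    show _ = C.indicator (fun _ => (1 : ℝ)) _ * D.indicator (fun _ => (1 : ℝ)) _
    by_cases h1 : (fun x => lab n (j + 1) (t + x)) ∈ C
    · by_cases h2 : (fun x => lab n (j + 1) (t + (x + n j))) ∈ D
      · rw [Set.indicator_of_mem h1, Set.indicator_of_mem h2,
          Set.indicator_of_mem (show _ ∈ C ∩ _ from ⟨h1, h2⟩), mul_one]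
      · rw [Set.indicator_of_notMem h2, mul_zero, Set.indicator_of_notMem]
        exact fun h3 => h2 h3.2
    · rw [Set.indicator_of_notMem h1, zero_mul, Set.indicator_of_notMem]
      exact fun h3 => h1 h3.1
  have hper : ∀ t u : ℤ, lab n j (t + ((5 * hh n j : ℕ) : ℤ) + u) = lab n j (t + u) := by
    intro t u
    have e1 : t + ((5 * hh n j : ℕ) : ℤ) + u = (t + u) + ((5 * hh n j : ℕ) : ℤ) := by ring
    rw [e1, lab_period n hn]
  have hg : ∀ p t, g p (t + (5 * hh n j : ℕ)) = g p t := by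
    intro p t
    show c1 _ * d1 _ = c1 _ * d1 _
    congr 2
    · funext x
      have e1 : t + ((5 * hh n j : ℕ) : ℤ) + x + (tri p : ℕ) =
        t + ((5 * hh n j : ℕ) : ℤ) + (x + (tri p : ℕ)) := by ring
      rw [e1, hper, ← add_assoc]
    · funext x
      have e1 : t + ((5 * hh n j : ℕ) : ℤ) + x + n j + (tri p : ℕ) + p =
        t + ((5 * hh n j : ℕ) : ℤ) + (x + n j + (tri p : ℕ) + p) := by ring
      rw [e1, hper]
      congr 1
      ring
  -- the modified function
  let f' : ℤ → ℝ := fun t => if blk (n j) t + 1 = n j ^ 2 then g (blk (n j) t) t else f t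
  have hb : |avg (5 * hh n (j + 1)) f' - avg (5 * hh n (j + 1)) (fun t => g (blk (n j) t) t)| ≤
      ((a : ℝ) + b) / n j := by
    have e5 : 5 * hh n (j + 1) = n j * (5 * n j ^ 2) := by
      show 5 * n j ^ 3 = _
      ring
    rw [e5]
    apply avg_boundary (n j) (5 * n j ^ 2) a b hpos (by positivity)
    · intro t h0 h1
      show (if blk (n j) t + 1 = n j ^ 2 then g (blk (n j) t) t else f t) = g (blk (n j) t) t
      split_ifs with h2
      · rfl
      · have hlt : blk (n j) t + 1 < n j ^ 2 := by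
          have := blk_lt (n j) hpos t
          omega
        show c1 _ * d1 _ = c1 _ * d1 _
        congr 1
        · apply ind_congr a b C hC
          intro x hx0 hx1
          exact lab_good n j a b hpos t h0 h1 x hx0 hx1
        · apply ind_congr a b D hD
          intro x hx0 hx1
          have e1 : t + (x + (n j : ℤ)) = (t + n j) + x := by ring
          show lab n (j + 1) (t + (x + (n j : ℤ))) = _
          rw [e1, lab_good n j a b hpos (t + n j) (by simpa using h0) (by simpa using h1) x hx0 hx1,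
            blk_next (n j) (hn.two j) t hlt, tri_succ]
          congr 1
          push_cast
          ring
    · intro t
      show |(if blk (n j) t + 1 = n j ^ 2 then g (blk (n j) t) t else f t) - g (blk (n j) t) t| ≤ 1
      split_ifs
      · simp
      · exact abs_sub_le_one_of (hf0 _) (hf1 _) (hg0 _ _) (hg1 _ _)
  have he : |avg (5 * hh n (j + 1)) f - avg (5 * hh n (j + 1)) f'| ≤ 1 / (n j : ℝ) ^ 2 := by
    have h1 : |avg (5 * hh n (j + 1)) f - avg (5 * hh n (j + 1)) f'| ≤
        avg (5 * hh n (j + 1)) (fun t => e (blk (n j) t) t) := by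
      apply avg_mono_abs
      intro t
      show |f t - (if blk (n j) t + 1 = n j ^ 2 then g (blk (n j) t) t else f t)| ≤
        (if blk (n j) t + 1 = n j ^ 2 then 1 else 0)
      split_ifs
      · exact abs_sub_le_one_of (hf0 _) (hf1 _) (hg0 _ _) (hg1 _ _)
      · simp
    refine h1.trans (le_of_eq ?_)
    show avg (5 * n j ^ 3) _ = _
    rw [avg_block (n j) (hh n j) hpos (hn.cop j) (hh_dvd n hn j) e (fun _ _ => rfl)]
    congr 1
    have h2 : ∀ p, avg (5 * hh n j) (e p) = if p + 1 = n j ^ 2 then 1 else 0 := fun p =>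
      avg_const _ (by positivity) _
    rw [Finset.sum_congr rfl (fun p _ => h2 p), Finset.sum_ite]
    have h3 : (Finset.range (n j ^ 2)).filter (fun p => p + 1 = n j ^ 2) = {n j ^ 2 - 1} := by
      have : 0 < n j ^ 2 := by positivity
      ext p
      simp only [Finset.mem_filter, Finset.mem_range, Finset.mem_singleton]
      omega
    rw [h3]
    simp
  -- the main term
  have hm : avg (5 * hh n (j + 1)) (fun t => g (blk (n j) t) t) =
      avg (5 * hh n j) (fun t => c1 (fun x => lab n j (t + x)) *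
        ((∑ p ∈ Finset.range (n j ^ 2), d1 (fun x => lab n j ((t + n j) + p + x))) /
          ((n j ^ 2 : ℕ) : ℝ))) := by
    show avg (5 * n j ^ 3) _ = _
    rw [avg_block (n j) (hh n j) hpos (hn.cop j) (hh_dvd n hn j) g hg]
    have h3 : ∀ p, avg (5 * hh n j) (g p) = avg (5 * hh n j) (fun t =>
        c1 (fun x => lab n j (t + x)) * d1 (fun x => lab n j ((t + n j) + p + x))) := by
      intro p
      have hs := avg_shift (5 * hh n j) (fun t =>
        c1 (fun x => lab n j (t + x)) * d1 (fun x => lab n j ((t + n j) + p + x))) (by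
          intro t
          show c1 _ * d1 _ = c1 _ * d1 _
          congr 2
          · funext x
            rw [hper]
          · funext x
            have e1 : t + ((5 * hh n j : ℕ) : ℤ) + n j + p + x =
              t + ((5 * hh n j : ℕ) : ℤ) + (n j + p + x) := by ring
            rw [e1, hper]
            congr 1
            ring) (tri p : ℕ)
      rw [← hs]
      congr 1
      funext t
      show c1 _ * d1 _ = c1 _ * d1 _
      congr 2
      · funext x
        congr 1
        ring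
      · funext x
        congr 1
        ring
    rw [Finset.sum_congr rfl (fun p _ => h3 p)]
    unfold avg
    rw [← Finset.sum_div, Finset.sum_comm, div_right_comm, Finset.sum_div]
    congr 1
    apply Finset.sum_congr rfl
    intro t _
    rw [← Finset.mul_sum]
    push_cast
    ring
  have hlong : |avg (5 * hh n j) (fun t => c1 (fun x => lab n j (t + x)) *
        ((∑ p ∈ Finset.range (n j ^ 2), d1 (fun x => lab n j ((t + n j) + p + x))) /
          ((n j ^ 2 : ℕ) : ℝ))) -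
        fr (5 * hh n j) (lab n j) C * fr (5 * hh n j) (lab n j) D| ≤ 5 / n j := by
    have h1 : fr (5 * hh n j) (lab n j) C * fr (5 * hh n j) (lab n j) D =
        avg (5 * hh n j) (fun t => c1 (fun x => lab n j (t + x)) *
          fr (5 * hh n j) (lab n j) D) := by
      unfold fr avg
      rw [← Finset.sum_mul]
      ring
    rw [h1]
    refine (avg_mono_abs _ _ _ (fun _ => 5 / (n j : ℝ)) ?_).trans (le_of_eq (avg_const _ (by positivity) _))
    intro t
    rw [← mul_sub, abs_mul]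
    have h2 := avg_long (5 * hh n j) (by positivity) (n j ^ 2) (by positivity)
      (fun u => d1 (fun x => lab n j (u + x))) (by
        intro u
        show d1 _ = d1 _
        congr 1
        funext x
        rw [hper]) (fun u => hd0 _) (fun u => hd1 _) (t + n j)
    have h3 : ((5 * hh n j : ℕ) : ℝ) / ((n j ^ 2 : ℕ) : ℝ) ≤ 5 / n j := by
      have h4 : (hh n j : ℝ) ≤ n j := by
        exact_mod_cast Nat.le_of_dvd hpos (hh_dvd n hn j)
      push_cast
      rw [div_le_div_iff₀ (by positivity) hposR]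
      nlinarith
    have h5 : |c1 (fun x => lab n j (t + x))| ≤ 1 := by
      rw [abs_of_nonneg (hc0 _)]
      exact hc1 _
    calc |c1 (fun x => lab n j (t + x))| *
          |(∑ p ∈ Finset.range (n j ^ 2), d1 (fun x => lab n j ((t + n j) + p + x))) /
          ((n j ^ 2 : ℕ) : ℝ) - fr (5 * hh n j) (lab n j) D|
        ≤ 1 * (((5 * hh n j : ℕ) : ℝ) / ((n j ^ 2 : ℕ) : ℝ)) :=
          mul_le_mul h5 h2 (abs_nonneg _) zero_le_one
      _ ≤ 5 / n j := by rw [one_mul]; exact h3
  rw [hfr]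
  have hn2 : 1 / (n j : ℝ) ^ 2 ≤ 1 / n j := by
    apply one_div_le_one_div_of_le hposR
    have : (1 : ℝ) ≤ n j := by exact_mod_cast hpos
    nlinarith
  have hsum : ((a : ℝ) + b + 6) / n j = ((a : ℝ) + b) / n j + 1 / n j + 5 / n j := by ring
  rw [hsum]
  rw [hm] at hb
  have t1 := abs_sub_le (avg (5 * hh n (j + 1)) f) (avg (5 * hh n (j + 1)) f')
    (fr (5 * hh n j) (lab n j) C * fr (5 * hh n j) (lab n j) D)
  have t2 := abs_sub_le (avg (5 * hh n (j + 1)) f') (avg (5 * hh n j) (fun t =>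
      c1 (fun x => lab n j (t + x)) *
        ((∑ p ∈ Finset.range (n j ^ 2), d1 (fun x => lab n j ((t + n j) + p + x))) /
          ((n j ^ 2 : ℕ) : ℝ))))
    (fr (5 * hh n j) (lab n j) C * fr (5 * hh n j) (lab n j) D)
  linarith

/-- the shift -/
def sh : (ℤ → ZMod 5) ≃ᵐ (ℤ → ZMod 5) where
  toFun ω x := ω (x + 1)
  invFun ω x := ω (x - 1)
  left_inv ω := by funext x; simp
  right_inv ω := by funext x; simp
  measurable_toFun := by
    exact measurable_pi_lambda _ (fun x => measurable_pi_apply _)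
  measurable_invFun := by
    exact measurable_pi_lambda _ (fun x => measurable_pi_apply _)

theorem sh_apply (ω : ℤ → ZMod 5) (x : ℤ) : sh ω x = ω (x + 1) := rfl

theorem sh_iterate (k : ℕ) (ω : ℤ → ZMod 5) (x : ℤ) : (⇑sh)^[k] ω x = ω (x + k) := by
  induction k generalizing ω with
  | zero => simp
  | succ k ih =>
    rw [Function.iterate_succ_apply, ih, sh_apply]
    congr 1
    push_cast
    ring

theorem sh_cont : Continuous (⇑sh) := continuous_pi (fun n => continuous_apply (n + 1))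

theorem Win_compl {a b : ℕ} {E : Set (ℤ → ZMod 5)} (h : Win a b E) : Win a b Eᶜ := by
  intro ω ω' hω
  rw [Set.mem_compl_iff, Set.mem_compl_iff, h ω ω' hω]

theorem Win_open {a b : ℕ} {E : Set (ℤ → ZMod 5)} (h : Win a b E) : IsOpen E := by
  rw [isOpen_iff_forall_mem_open]
  intro ω hω
  refine ⟨⋂ x ∈ Set.Icc (-(a : ℤ)) b, (fun ω' : ℤ → ZMod 5 => ω' x) ⁻¹' {ω x}, ?_, ?_, ?_⟩
  · intro ω' hω'
    rw [Set.mem_iInter₂] at hω'
    exact (h ω' ω (fun x hx hx' => hω' x ⟨hx, hx'⟩)).2 hω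
  · apply (Set.finite_Icc (-(a : ℤ)) b).isOpen_biInter
    intro x _
    exact (isOpen_discrete _).preimage (continuous_apply x)
  · rw [Set.mem_iInter₂]
    intro x _
    rfl

theorem Win_clopen {a b : ℕ} {E : Set (ℤ → ZMod 5)} (h : Win a b E) : IsClopen E :=
  ⟨⟨Win_open (Win_compl h)⟩, Win_open h⟩

/-- point of the orbit -/
def pt (F : ℤ → ZMod 5) (t : ℕ) : ℤ → ZMod 5 := fun n => F (t + n)

/-- empirical measure -/
noncomputable def emp (M : ℕ) (F : ℤ → ZMod 5) : Measure (ℤ → ZMod 5) :=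
  (M : ENNReal)⁻¹ • ∑ t ∈ Finset.range M, Measure.dirac (pt F t)

theorem emp_apply (M : ℕ) (F : ℤ → ZMod 5) {S : Set (ℤ → ZMod 5)} (hS : MeasurableSet S) :
    emp M F S = (M : ENNReal)⁻¹ * ∑ t ∈ Finset.range M, S.indicator 1 (pt F t) := by
  unfold emp
  rw [Measure.smul_apply, Measure.finsetSum_apply, smul_eq_mul]
  congr 1
  apply Finset.sum_congr rfl
  intro t _
  exact Measure.dirac_apply' _ hS

theorem emp_prob {M : ℕ} (hM : 0 < M) (F : ℤ → ZMod 5) : IsProbabilityMeasure (emp M F) := by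
  constructor
  rw [emp_apply M F MeasurableSet.univ]
  simp only [Set.indicator_univ, Pi.one_apply, Finset.sum_const, Finset.card_range, nsmul_eq_mul,
    mul_one]
  exact ENNReal.inv_mul_cancel (by exact_mod_cast hM.ne') (ENNReal.natCast_ne_top M)

theorem emp_real {M : ℕ} (F : ℤ → ZMod 5) {S : Set (ℤ → ZMod 5)}
    (hS : MeasurableSet S) : (emp M F).real S = fr M F S := by
  unfold Measure.real fr avg
  rw [emp_apply M F hS, ENNReal.toReal_mul, ENNReal.toReal_inv, ENNReal.toReal_natCast,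
    ENNReal.toReal_sum, div_eq_inv_mul]
  · congr 1
    apply Finset.sum_congr rfl
    intro t _
    by_cases h : pt F t ∈ S
    · have h' : (fun x : ℤ => F ((t : ℤ) + x)) ∈ S := h
      simp only [Set.indicator_of_mem h, Set.indicator_of_mem h', Pi.one_apply, ENNReal.toReal_one]
    · have h' : (fun x : ℤ => F ((t : ℤ) + x)) ∉ S := h
      simp only [Set.indicator_of_notMem h, Set.indicator_of_notMem h', ENNReal.toReal_zero]
  · intro t _
    by_cases h : pt F t ∈ S
    · simp [Set.indicator_of_mem h]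
    · simp [Set.indicator_of_notMem h]

theorem emp_map {M : ℕ} (F : ℤ → ZMod 5) (hF : ∀ t, F (t + M) = F t) :
    (emp M F).map sh = emp M F := by
  unfold emp
  rw [Measure.map_smul, Measure.map_finset_sum (sh_cont.measurable.aemeasurable)]
  congr 1
  have h1 : ∀ t : ℕ, (Measure.dirac (pt F t)).map sh = Measure.dirac (pt F (t + 1)) := by
    intro t
    rw [Measure.map_dirac' sh_cont.measurable]
    congr 1
    funext n
    show F (t + (n + 1)) = F (((t + 1 : ℕ) : ℤ) + n)
    congr 1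
    push_cast
    ring
  rw [Finset.sum_congr rfl (fun t _ => h1 t)]
  cases M with
  | zero => simp
  | succ m =>
    rw [Finset.sum_range_succ, Finset.sum_range_succ' (fun t => Measure.dirac (pt F t))]
    congr 2
    funext n
    show F (((m + 1 : ℕ) : ℤ) + n) = F (((0 : ℕ) : ℤ) + n)
    have := hF n
    rw [add_comm, this]
    simp

theorem limit_measure (H : ℕ → ℕ) (hH : ∀ j, 0 < H j) (w : ℕ → ℤ → ZMod 5)
    (hper : ∀ j t, w j (t + H j) = w j t) (n : ℕ → ℕ) (hn0 : ∀ j, 2 ≤ n j)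
    (hn : ∀ j, 2 * n j ≤ n (j + 1))
    (hstep : ∀ j a b (E : Set (ℤ → ZMod 5)), Win a b E →
      |fr (H (j + 1)) (w (j + 1)) E - fr (H j) (w j) E| ≤ ((a : ℝ) + b) / n j) :
    ∃ P : Measure (ℤ → ZMod 5), IsProbabilityMeasure P ∧ MeasurePreserving sh P P ∧
      ∀ j a b (E : Set (ℤ → ZMod 5)), Win a b E →
        |P.real E - fr (H j) (w j) E| ≤ 2 * ((a : ℝ) + b) / n j := by
  -- telescoping
  have hnp : ∀ j, (0 : ℝ) < n j := fun j => by
    have := hn0 j
    exact_mod_cast (by omega : 0 < n j)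
  have htel : ∀ a b (E : Set (ℤ → ZMod 5)), Win a b E → ∀ j k : ℕ,
      |fr (H (j + k)) (w (j + k)) E - fr (H j) (w j) E| ≤
        2 * ((a : ℝ) + b) / n j - 2 * ((a : ℝ) + b) / n (j + k) := by
    intro a b E hE j k
    induction k with
    | zero => simp
    | succ k ih =>
      have h1 := hstep (j + k) a b E hE
      have h2 : (2 : ℝ) * ((a : ℝ) + b) / n (j + k + 1) ≤ ((a : ℝ) + b) / n (j + k) := by
        rw [div_le_div_iff₀ (hnp _) (hnp _)]
        have h3 : (2 : ℝ) * n (j + k) ≤ n (j + k + 1) := by exact_mod_cast hn (j + k)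
        have h4 : (0 : ℝ) ≤ (a : ℝ) + b := by positivity
        nlinarith
      have h5 : |fr (H (j + (k + 1))) (w (j + (k + 1))) E - fr (H j) (w j) E| ≤
          |fr (H (j + k + 1)) (w (j + k + 1)) E - fr (H (j + k)) (w (j + k)) E| +
          |fr (H (j + k)) (w (j + k)) E - fr (H j) (w j) E| := by
        have := abs_add_le (fr (H (j + k + 1)) (w (j + k + 1)) E - fr (H (j + k)) (w (j + k)) E)
          (fr (H (j + k)) (w (j + k)) E - fr (H j) (w j) E)
        rw [sub_add_sub_cancel] at this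
        exact this
      have h6 : (2 : ℝ) * ((a : ℝ) + b) / n (j + k) = ((a : ℝ) + b) / n (j + k) +
        ((a : ℝ) + b) / n (j + k) := by ring
      have h7 : (n (j + (k + 1)) : ℝ) = n (j + k + 1) := rfl
      rw [h7]
      linarith
  have htel' : ∀ a b (E : Set (ℤ → ZMod 5)), Win a b E → ∀ j i : ℕ, j ≤ i →
      |fr (H i) (w i) E - fr (H j) (w j) E| ≤ 2 * ((a : ℝ) + b) / n j := by
    intro a b E hE j i hji
    obtain ⟨k, rfl⟩ := Nat.exists_eq_add_of_le hji
    have h1 := htel a b E hE j k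
    have h2 : (0 : ℝ) ≤ 2 * ((a : ℝ) + b) / n (j + k) := by
      have := hnp (j + k)
      positivity
    linarith
  let _ : MetricSpace (ℤ → ZMod 5) := TopologicalSpace.metrizableSpaceMetric (ℤ → ZMod 5)
  have hcont : ∀ S : Set (ℤ → ZMod 5), IsClopen S →
      Continuous (fun μ : ProbabilityMeasure (ℤ → ZMod 5) => μ S) := by
    intro S hS
    rw [continuous_iff_continuousAt]
    intro μ
    exact ProbabilityMeasure.tendsto_measure_of_isClopen_of_tendsto Filter.tendsto_id hS
  let e : ℕ → ProbabilityMeasure (ℤ → ZMod 5) := fun j => ⟨emp (H j) (w j), emp_prob (hH j) _⟩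
  let U : Ultrafilter ℕ := Filter.hyperfilter ℕ
  obtain ⟨P, -, hP⟩ := (isCompact_univ (X := ProbabilityMeasure (ℤ → ZMod 5))).ultrafilter_le_nhds
    (U.map e) (by simp)
  have hP' : Tendsto e U (𝓝 P) := hP
  refine ⟨(P : Measure (ℤ → ZMod 5)), inferInstance, ?_, ?_⟩
  · refine ⟨sh_cont.measurable, ?_⟩
    have h1 : Tendsto (fun j => (e j).map sh_cont.measurable.aemeasurable) U
        (𝓝 (P.map sh_cont.measurable.aemeasurable)) :=
      ((ProbabilityMeasure.continuous_map sh_cont).tendsto P).comp hP'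
    have h2 : (fun j => (e j).map sh_cont.measurable.aemeasurable) = e := by
      funext j
      apply Subtype.ext
      exact emp_map (w j) (hper j)
    rw [h2] at h1
    have h3 := tendsto_nhds_unique h1 hP'
    exact congrArg (fun ν : ProbabilityMeasure (ℤ → ZMod 5) => (ν : Measure (ℤ → ZMod 5))) h3
  · intro j a b E hE
    have hcl := Win_clopen hE
    have h1 : Tendsto (fun i => ((e i E : NNReal) : ℝ)) U (𝓝 ((P E : NNReal) : ℝ)) :=
      (NNReal.continuous_coe.tendsto _).comp (((hcont E hcl).tendsto P).comp hP')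
    have h2 : ∀ i, ((e i E : NNReal) : ℝ) = fr (H i) (w i) E := by
      intro i
      rw [← emp_real (w i) hcl.isOpen.measurableSet]
      rfl
    have h3 : ((P E : NNReal) : ℝ) = (P : Measure (ℤ → ZMod 5)).real E := rfl
    simp only [h2] at h1
    rw [h3] at h1
    have h4 : Tendsto (fun i => |fr (H i) (w i) E - fr (H j) (w j) E|) U
        (𝓝 |(P : Measure (ℤ → ZMod 5)).real E - fr (H j) (w j) E|) :=
      (h1.sub_const _).abs
    refine le_of_tendsto h4 ?_
    have h5 : ∀ᶠ i in (atTop : Filter ℕ), |fr (H i) (w i) E - fr (H j) (w j) E| ≤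
        2 * ((a : ℝ) + b) / n j := by
      filter_upwards [eventually_ge_atTop j] with i hi
      exact htel' a b E hE j i hi
    rw [← Nat.cofinite_eq_atTop] at h5
    exact Filter.hyperfilter_le_cofinite h5

theorem abs_ext {X : Type} [mX : MeasurableSpace X] (μ : Measure X) [IsProbabilityMeasure μ]
    (F : ℕ → Set X → ℝ) (s : ℕ → Finset ℕ)
    (h0 : ∀ i A, 0 ≤ F i A) (hempty : ∀ i, F i ∅ = 0)
    (hc : ∀ i A, MeasurableSet A → F i Aᶜ = F i A)
    (hu : ∀ i A B, MeasurableSet A → MeasurableSet B → Disjoint A B →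
      F i (A ∪ B) ≤ F i A + F i B)
    (hb : ∀ i A, MeasurableSet A → F i A ≤ 2 * μ.real A)
    (𝒞 : Set (Set X)) (hpi : IsPiSystem 𝒞) (hgen : mX = MeasurableSpace.generateFrom 𝒞)
    (h : ∀ A ∈ 𝒞, Tendsto (fun N : ℕ => ((s N).card : ℝ)⁻¹ * ∑ i ∈ s N, F i A) atTop (𝓝 0))
    (A : Set X) (hA : MeasurableSet A) :
    Tendsto (fun N : ℕ => ((s N).card : ℝ)⁻¹ * ∑ i ∈ s N, F i A) atTop (𝓝 0) := by
  -- basic facts on averages
  have avg_nonneg : ∀ N A, 0 ≤ ((s N).card : ℝ)⁻¹ * ∑ i ∈ s N, F i A := fun N A =>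
    mul_nonneg (by positivity) (Finset.sum_nonneg fun i _ => h0 i A)
  have avg_const : ∀ N (c : ℝ), 0 ≤ c → ((s N).card : ℝ)⁻¹ * ∑ _i ∈ s N, c ≤ c := by
    intro N c hc0
    rw [Finset.sum_const, nsmul_eq_mul, ← mul_assoc]
    have : ((s N).card : ℝ)⁻¹ * ((s N).card : ℝ) ≤ 1 := inv_mul_le_one
    calc ((s N).card : ℝ)⁻¹ * ((s N).card : ℝ) * c ≤ 1 * c := mul_le_mul_of_nonneg_right this hc0
      _ = c := one_mul c
  have avg_union : ∀ N A B, MeasurableSet A → MeasurableSet B → Disjoint A B →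
      ((s N).card : ℝ)⁻¹ * ∑ i ∈ s N, F i (A ∪ B) ≤
      ((s N).card : ℝ)⁻¹ * ∑ i ∈ s N, F i A + ((s N).card : ℝ)⁻¹ * ∑ i ∈ s N, F i B := by
    intro N A B hA hB hd
    rw [← mul_add, ← Finset.sum_add_distrib]
    exact mul_le_mul_of_nonneg_left (Finset.sum_le_sum fun i _ => hu i A B hA hB hd)
      (by positivity)
  have avg_le : ∀ N A, MeasurableSet A →
      ((s N).card : ℝ)⁻¹ * ∑ i ∈ s N, F i A ≤ 2 * μ.real A := by
    intro N A hA
    refine le_trans (mul_le_mul_of_nonneg_left (Finset.sum_le_sum fun i _ => hb i A hA)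
      (by positivity)) (avg_const N _ (by positivity))
  induction A, hA using MeasurableSpace.induction_on_inter hgen hpi with
  | empty => simp [hempty]
  | basic t ht => exact h t ht
  | compl t htm iht =>
    simpa [hc _ t htm] using iht
  | iUnion f hd hm ih =>
    -- heads
    have hhead : ∀ m, Tendsto (fun N : ℕ => ((s N).card : ℝ)⁻¹ *
        ∑ i ∈ s N, F i (Set.accumulate f m)) atTop (𝓝 0) := by
      intro m
      induction m with
      | zero => simpa [Set.accumulate_zero_nat] using ih 0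
      | succ m ihm =>
        have hsum := ihm.add (ih (m + 1))
        rw [add_zero] at hsum
        refine tendsto_of_tendsto_of_tendsto_of_le_of_le tendsto_const_nhds hsum
          (fun N => avg_nonneg N _) (fun N => ?_)
        rw [Set.accumulate_succ]
        apply avg_union N
        · exact MeasurableSet.biUnion (Set.to_countable _) fun j _ => hm j
        · exact hm _
        · rw [Set.disjoint_left]
          intro x hx hx'
          rw [Set.mem_accumulate] at hx
          obtain ⟨j, hj, hxj⟩ := hx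
          exact Set.disjoint_left.1 (hd (by omega : j ≠ m + 1)) hxj hx'
    have hmeas : ∀ m, MeasurableSet (Set.accumulate f m) := fun m =>
      MeasurableSet.biUnion (Set.to_countable _) fun j _ => hm j
    have hUm : MeasurableSet (⋃ i, f i) := MeasurableSet.iUnion hm
    have hsub : ∀ m, Set.accumulate f m ⊆ ⋃ i, f i := by
      intro m x hx
      rw [Set.mem_accumulate] at hx
      obtain ⟨j, _, hxj⟩ := hx
      exact Set.mem_iUnion.2 ⟨j, hxj⟩
    have htail : Tendsto (fun m => μ.real ((⋃ i, f i) \ Set.accumulate f m)) atTop (𝓝 0) := by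
      have h1 : Tendsto (fun m => μ.real (Set.accumulate f m)) atTop (𝓝 (μ.real (⋃ i, f i))) :=
        (ENNReal.tendsto_toReal (measure_ne_top μ _)).comp tendsto_measure_iUnion_accumulate
      have h2 : Tendsto (fun m => μ.real (⋃ i, f i) - μ.real (Set.accumulate f m)) atTop
          (𝓝 (μ.real (⋃ i, f i) - μ.real (⋃ i, f i))) := tendsto_const_nhds.sub h1
      rw [sub_self] at h2
      refine h2.congr fun m => ?_
      rw [measureReal_sdiff (hsub m) (hmeas m)]
    rw [Metric.tendsto_atTop]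
    intro ε hε
    obtain ⟨m, hm'⟩ := ((Metric.tendsto_atTop.1 htail) (ε / 4) (by positivity))
    have hm1 := hm' m le_rfl
    rw [Real.dist_eq, sub_zero, abs_of_nonneg measureReal_nonneg] at hm1
    obtain ⟨N0, hN0⟩ := (Metric.tendsto_atTop.1 (hhead m)) (ε / 2) (by positivity)
    refine ⟨N0, fun N hN => ?_⟩
    have h3 := hN0 N hN
    rw [Real.dist_eq, sub_zero, abs_of_nonneg (avg_nonneg N _)] at h3 ⊢
    have h4 : (⋃ i, f i) = Set.accumulate f m ∪ ((⋃ i, f i) \ Set.accumulate f m) :=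
      (Set.union_sdiff_cancel (hsub m)).symm
    have h5 := avg_union N (Set.accumulate f m) ((⋃ i, f i) \ Set.accumulate f m) (hmeas m)
      (hUm.diff (hmeas m)) Set.disjoint_sdiff_right
    rw [← h4] at h5
    have h6 := avg_le N ((⋃ i, f i) \ Set.accumulate f m) (hUm.diff (hmeas m))
    linarith

theorem ext_pi {X : Type} [mX : MeasurableSpace X] (μ : Measure X) [IsProbabilityMeasure μ]
    (T : ℕ → X → X) (hT : ∀ i, MeasurePreserving (T i) μ μ) (s : ℕ → Finset ℕ)
    (𝒞 : Set (Set X)) (hpi : IsPiSystem 𝒞) (hgen : mX = MeasurableSpace.generateFrom 𝒞)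
    (h : ∀ A ∈ 𝒞, ∀ B ∈ 𝒞, Tendsto (fun N : ℕ => ((s N).card : ℝ)⁻¹ *
      ∑ i ∈ s N, |μ.real (T i ⁻¹' A ∩ B) - μ.real A * μ.real B|) atTop (𝓝 0))
    (A B : Set X) (hA : MeasurableSet A) (hB : MeasurableSet B) :
    Tendsto (fun N : ℕ => ((s N).card : ℝ)⁻¹ *
      ∑ i ∈ s N, |μ.real (T i ⁻¹' A ∩ B) - μ.real A * μ.real B|) atTop (𝓝 0) := by
  have key : ∀ i {A B : Set X}, MeasurableSet A → μ.real (T i ⁻¹' A) = μ.real A := by
    intro i A _ hA
    exact (hT i).measureReal_preimage hA.nullMeasurableSet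
  have C𝒞 : ∀ A ∈ 𝒞, MeasurableSet A := fun A hA => by
    rw [hgen]; exact MeasurableSpace.measurableSet_generateFrom hA
  have step1 : ∀ B ∈ 𝒞, ∀ A, MeasurableSet A → Tendsto (fun N : ℕ => ((s N).card : ℝ)⁻¹ *
      ∑ i ∈ s N, |μ.real (T i ⁻¹' A ∩ B) - μ.real A * μ.real B|) atTop (𝓝 0) := by
    intro B hBC A hA
    have hB := C𝒞 B hBC
    refine abs_ext μ (fun i A => |μ.real (T i ⁻¹' A ∩ B) - μ.real A * μ.real B|) s
      (fun i A => abs_nonneg _) (by simp) ?_ ?_ ?_ 𝒞 hpi hgen (fun A hAC => h A hAC B hBC) A hA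
    · intro i A hA
      have h1 : μ.real (T i ⁻¹' Aᶜ ∩ B) = μ.real B - μ.real (T i ⁻¹' A ∩ B) := by
        have hm : MeasurableSet (T i ⁻¹' A) := (hT i).measurable hA
        have := measureReal_inter_add_sdiff (μ := μ) (s := B) hm
        rw [Set.preimage_compl, Set.inter_comm, ← Set.sdiff_eq, Set.inter_comm (T i ⁻¹' A) B]
        linarith
      have h2 : μ.real Aᶜ = 1 - μ.real A := probReal_compl_eq_one_sub hA
      rw [h1, h2, ← abs_neg]
      congr 1
      ring
    · intro i A1 A2 hA1 hA2 hd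
      have h1 : μ.real (T i ⁻¹' (A1 ∪ A2) ∩ B) = μ.real (T i ⁻¹' A1 ∩ B) + μ.real (T i ⁻¹' A2 ∩ B) := by
        rw [Set.preimage_union, Set.union_inter_distrib_right]
        exact measureReal_union ((hd.preimage _).mono Set.inter_subset_left Set.inter_subset_left)
          (((hT i).measurable hA2).inter hB)
      have h2 : μ.real (A1 ∪ A2) = μ.real A1 + μ.real A2 := measureReal_union hd hA2
      rw [h1, h2]
      refine le_trans (le_of_eq ?_) (abs_add_le _ _)
      congr 1
      ring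
    · intro i A hA
      have h1 : μ.real (T i ⁻¹' A ∩ B) ≤ μ.real A := by
        rw [← key i (B := B) hA]; exact measureReal_mono Set.inter_subset_left
      have h2 : μ.real B ≤ 1 := measureReal_le_one
      have h3 : 0 ≤ μ.real A := measureReal_nonneg
      have h4 : 0 ≤ μ.real (T i ⁻¹' A ∩ B) := measureReal_nonneg
      have h5 : 0 ≤ μ.real B := measureReal_nonneg
      have h6 : μ.real A * μ.real B ≤ μ.real A := mul_le_of_le_one_right h3 h2
      have h7 : 0 ≤ μ.real A * μ.real B := mul_nonneg h3 h5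
      rw [abs_le]
      constructor <;> linarith
  refine abs_ext μ (fun i B => |μ.real (T i ⁻¹' A ∩ B) - μ.real A * μ.real B|) s
      (fun i A => abs_nonneg _) (by simp) ?_ ?_ ?_ 𝒞 hpi hgen (fun B hBC => step1 B hBC A hA) B hB
  · intro i B hB
    have h1 : μ.real (T i ⁻¹' A ∩ Bᶜ) = μ.real A - μ.real (T i ⁻¹' A ∩ B) := by
      have := measureReal_inter_add_sdiff (μ := μ) (s := T i ⁻¹' A) hB
      rw [key i (B := B) hA] at this
      rw [← Set.sdiff_eq]
      linarith
    have h2 : μ.real Bᶜ = 1 - μ.real B := probReal_compl_eq_one_sub hB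
    rw [h1, h2, ← abs_neg]
    congr 1
    ring
  · intro i B1 B2 hB1 hB2 hd
    have h1 : μ.real (T i ⁻¹' A ∩ (B1 ∪ B2)) = μ.real (T i ⁻¹' A ∩ B1) + μ.real (T i ⁻¹' A ∩ B2) := by
      rw [Set.inter_union_distrib_left]
      exact measureReal_union (hd.mono Set.inter_subset_right Set.inter_subset_right)
        (((hT i).measurable hA).inter hB2)
    have h2 : μ.real (B1 ∪ B2) = μ.real B1 + μ.real B2 := measureReal_union hd hB2
    rw [h1, h2]
    refine le_trans (le_of_eq ?_) (abs_add_le _ _)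
    congr 1
    ring
  · intro i B hB
    have h1 : μ.real (T i ⁻¹' A ∩ B) ≤ μ.real B := measureReal_mono Set.inter_subset_right
    have h2 : μ.real A ≤ 1 := measureReal_le_one
    have h3 : 0 ≤ μ.real A := measureReal_nonneg
    have h4 : 0 ≤ μ.real (T i ⁻¹' A ∩ B) := measureReal_nonneg
    have h5 : 0 ≤ μ.real B := measureReal_nonneg
    have h6 : μ.real A * μ.real B ≤ μ.real B := mul_le_of_le_one_left h5 h2
    have h7 : 0 ≤ μ.real A * μ.real B := mul_nonneg h3 h5
    rw [abs_le]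
    constructor <;> linarith

/-- weak mixing in the Cesàro sense, as in the frozen statement -/
def WM {X : Type} [MeasurableSpace X] (μ : Measure X) (e : X ≃ᵐ X) : Prop :=
  ∀ A B : Set X, MeasurableSet A → MeasurableSet B →
    Tendsto (fun N : ℕ => (N : ℝ)⁻¹ *
      ∑ n ∈ Finset.range N, |μ.real ((⇑e)^[n] ⁻¹' A ∩ B) - μ.real A * μ.real B|) atTop (𝓝 0)

theorem wm_prod {X Y : Type} [MeasurableSpace X] [MeasurableSpace Y] (μ : Measure X)
    (ν : Measure Y) [IsProbabilityMeasure μ] [IsProbabilityMeasure ν] (e : X ≃ᵐ X) (f : Y ≃ᵐ Y)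
    (he : MeasurePreserving e μ μ) (hf : MeasurePreserving f ν ν) (h1 : WM μ e) (h2 : WM ν f) :
    WM (μ.prod ν) (e.prodCongr f) := by
  intro A B hA hB
  have hiter : ∀ n, (⇑(e.prodCongr f))^[n] = Prod.map (⇑e)^[n] (⇑f)^[n] := by
    intro n
    have h : (⇑(e.prodCongr f)) = Prod.map e f := rfl
    rw [h, Prod.map_iterate]
  have hmp : ∀ i, MeasurePreserving ((⇑(e.prodCongr f))^[i]) (μ.prod ν) (μ.prod ν) := by
    intro i
    rw [hiter]
    exact (he.iterate i).prod (hf.iterate i)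
  have hrect : ∀ A ∈ (Set.image2 (· ×ˢ ·) {s : Set X | MeasurableSet s} {t : Set Y | MeasurableSet t}),
      ∀ B ∈ (Set.image2 (· ×ˢ ·) {s : Set X | MeasurableSet s} {t : Set Y | MeasurableSet t}),
      Tendsto (fun N : ℕ => (((fun N => Finset.range N) N).card : ℝ)⁻¹ *
      ∑ i ∈ (fun N => Finset.range N) N, |(μ.prod ν).real ((⇑(e.prodCongr f))^[i] ⁻¹' A ∩ B)
        - (μ.prod ν).real A * (μ.prod ν).real B|) atTop (𝓝 0) := by
    rintro _ ⟨S, hS, T, hT, rfl⟩ _ ⟨S', hS', T', hT', rfl⟩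
    have a1 := h1 S S' hS hS'
    have a2 := h2 T T' hT hT'
    have a3 := a1.add a2
    rw [add_zero] at a3
    refine squeeze_zero (fun N => by positivity) (fun N => ?_) a3
    simp only [Finset.card_range]
    rw [← mul_add, ← Finset.sum_add_distrib]
    refine mul_le_mul_of_nonneg_left (Finset.sum_le_sum fun i _ => ?_) (by positivity)
    have e1 : (⇑(e.prodCongr f))^[i] ⁻¹' (S ×ˢ T) ∩ (S' ×ˢ T')
        = ((⇑e)^[i] ⁻¹' S ∩ S') ×ˢ ((⇑f)^[i] ⁻¹' T ∩ T') := by
      rw [hiter]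
      ext ⟨x, y⟩
      simp only [Set.mem_inter_iff, Set.mem_preimage, Prod.map_apply, Set.mem_prod]
      tauto
    rw [e1]
    simp only [measureReal_prod_prod]
    have b1 : μ.real ((⇑e)^[i] ⁻¹' S ∩ S') ≤ 1 := measureReal_le_one
    have b2 : 0 ≤ μ.real ((⇑e)^[i] ⁻¹' S ∩ S') := measureReal_nonneg
    have b3 : ν.real T * ν.real T' ≤ 1 := mul_le_one₀ measureReal_le_one measureReal_nonneg measureReal_le_one
    have b4 : 0 ≤ ν.real T * ν.real T' := mul_nonneg measureReal_nonneg measureReal_nonneg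
    generalize μ.real ((⇑e)^[i] ⁻¹' S ∩ S') = a at *
    generalize ν.real ((⇑f)^[i] ⁻¹' T ∩ T') = b at *
    have e2 : a * b - μ.real S * ν.real T * (μ.real S' * ν.real T')
        = a * (b - ν.real T * ν.real T') + (a - μ.real S * μ.real S') * (ν.real T * ν.real T') := by
      ring
    rw [e2]
    refine (abs_add_le _ _).trans ?_
    rw [abs_mul, abs_mul, abs_of_nonneg b2, abs_of_nonneg b4, add_comm]
    refine add_le_add ?_ ?_
    · exact mul_le_of_le_one_right (abs_nonneg _) b3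
    · exact mul_le_of_le_one_left (abs_nonneg _) b1
  have key := ext_pi (μ.prod ν) (fun n => (⇑(e.prodCongr f))^[n]) hmp (fun N => Finset.range N)
    (Set.image2 (· ×ˢ ·) {s : Set X | MeasurableSet s} {t : Set Y | MeasurableSet t})
    isPiSystem_prod generateFrom_prod.symm hrect A B hA hB
  simpa using key

theorem erg_avg {X : Type} [MeasurableSpace X] (μ : Measure X) [IsProbabilityMeasure μ]
    (T : X → X) (hT : Ergodic T μ) (A B : Set X) (hA : MeasurableSet A) (hB : MeasurableSet B) :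
    Tendsto (fun N : ℕ => (N : ℝ)⁻¹ *
      ∑ n ∈ Finset.range N, μ.real (T^[n] ⁻¹' A ∩ B)) atTop (𝓝 (μ.real A * μ.real B)) := by
  have hTm : MeasurePreserving T μ μ := hT.toMeasurePreserving
  let x : Lp ℝ 2 μ := indicatorConstLp 2 hA (measure_ne_top μ A) (1 : ℝ)
  let b : Lp ℝ 2 μ := indicatorConstLp 2 hB (measure_ne_top μ B) (1 : ℝ)
  let o : Lp ℝ 2 μ := indicatorConstLp 2 MeasurableSet.univ (measure_ne_top μ Set.univ) (1 : ℝ)
  let U : Lp ℝ 2 μ →L[ℝ] Lp ℝ 2 μ :=
    (Lp.compMeasurePreservingₗᵢ ℝ T hTm).toContinuousLinearMap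
  have hU1 : ‖U‖ ≤ 1 := LinearIsometry.norm_toContinuousLinearMap_le _
  have hUapp : ∀ f : Lp ℝ 2 μ, U f = Lp.compMeasurePreserving T hTm f := fun f => rfl
  have hmean := U.tendsto_birkhoffAverage_orthogonalProjection hU1 x
  set Pr := (U.eqLocus (1 : Lp ℝ 2 μ →L[ℝ] Lp ℝ 2 μ)).orthogonalProjectionOnto x with hPr
  let y : Lp ℝ 2 μ := (Pr : Lp ℝ 2 μ)
  have hyfix : U y = y := Pr.2
  have hofix : U o = o := by
    rw [hUapp]
    have := Lp.indicatorConstLp_compMeasurePreserving (p := 2) (μ := μ) (μb := μ)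
      (c := (1 : ℝ)) MeasurableSet.univ (measure_ne_top μ Set.univ) hTm
    exact this
  obtain ⟨c, hc⟩ : ∃ c : ℝ, y =ᵐ[μ] Function.const X c := by
    apply hT.ae_eq_const_of_ae_eq_comp_ae (Lp.aestronglyMeasurable y)
    have h1 := Lp.coeFn_compMeasurePreserving y hTm
    rw [← hUapp, hyfix] at h1
    exact h1.symm
  have hyc : y = c • o := by
    apply Lp.ext
    have h1 : (o : X → ℝ) =ᵐ[μ] Set.univ.indicator (fun _ => (1 : ℝ)) :=
      indicatorConstLp_coeFn
    filter_upwards [hc, h1, Lp.coeFn_smul c o] with t h2 h3 h4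
    rw [h2, h4, Pi.smul_apply, h3]
    simp
  have hox : inner ℝ (x - y) o = 0 := by
    have h1 := Submodule.starProjection_inner_eq_zero
      (K := U.eqLocus (1 : Lp ℝ 2 μ →L[ℝ] Lp ℝ 2 μ)) x o hofix
    exact h1
  have hxo : inner ℝ x o = μ.real A := by
    have h1 := L2.real_inner_indicatorConstLp_one_indicatorConstLp_one (μ := μ) hA
      MeasurableSet.univ (measure_ne_top μ A) (measure_ne_top μ Set.univ)
    rw [Set.inter_univ] at h1
    exact h1
  have hoo : inner ℝ o o = (1 : ℝ) := by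
    have h1 := L2.real_inner_indicatorConstLp_one_indicatorConstLp_one (μ := μ)
      MeasurableSet.univ MeasurableSet.univ (measure_ne_top μ Set.univ) (measure_ne_top μ Set.univ)
    rw [Set.inter_univ, probReal_univ] at h1
    exact h1
  have hob : inner ℝ o b = μ.real B := by
    have h1 := L2.real_inner_indicatorConstLp_one_indicatorConstLp_one (μ := μ)
      MeasurableSet.univ hB (measure_ne_top μ Set.univ) (measure_ne_top μ B)
    rw [Set.univ_inter] at h1
    exact h1
  have hcA : c = μ.real A := by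
    rw [inner_sub_left, hyc, inner_smul_left, hoo, hxo] at hox
    simp at hox
    linarith
  have hyb : inner ℝ y b = μ.real A * μ.real B := by
    rw [hyc, inner_smul_left, hob, hcA]
    simp
  have hlim : Tendsto (fun N : ℕ => inner ℝ (birkhoffAverage ℝ U _root_.id N x) b) atTop
      (𝓝 (inner ℝ y b)) := by
    have h1 : Continuous (fun f : Lp ℝ 2 μ => inner ℝ f b) := by fun_prop
    exact (h1.tendsto _).comp hmean
  rw [hyb] at hlim
  refine hlim.congr ?_
  intro N
  unfold birkhoffAverage birkhoffSum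
  rw [inner_smul_left, sum_inner]
  simp only [id, RCLike.conj_to_real]
  congr 1
  apply Finset.sum_congr rfl
  intro n _
  have hiter : U^[n] x = indicatorConstLp 2 ((hTm.iterate n).measurable hA)
      (measure_ne_top μ _) (1 : ℝ) := by
    have h1 : U^[n] x = (Lp.compMeasurePreserving (E := ℝ) (p := 2) T hTm)^[n] x := rfl
    rw [h1, Lp.compMeasurePreserving_iterate]
    exact Lp.indicatorConstLp_compMeasurePreserving (p := 2) (μ := μ) (μb := μ)
      (c := (1 : ℝ)) hA (measure_ne_top μ A) (hTm.iterate n)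
  rw [hiter]
  exact L2.real_inner_indicatorConstLp_one_indicatorConstLp_one (μ := μ)
      ((hTm.iterate n).measurable hA) hB (measure_ne_top μ _) (measure_ne_top μ B)

theorem wm_of_mix {X : Type} [MeasurableSpace X] (μ : Measure X) [IsProbabilityMeasure μ]
    (e : X ≃ᵐ X) (he : MeasurePreserving e μ μ) (n : ℕ → ℕ)
    (h : ∀ A B : Set X, MeasurableSet A → MeasurableSet B →
      Tendsto (fun j : ℕ => μ.real ((⇑e)^[n j] ⁻¹' A ∩ B)) atTop (𝓝 (μ.real A * μ.real B))) :
    WM μ e := by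
  have hSmp : MeasurePreserving (Prod.map e e) (μ.prod μ) (μ.prod μ) := he.prod he
  have hrect : ∀ (k : ℕ) (A B C D : Set X),
      (μ.prod μ).real ((Prod.map e e)^[k] ⁻¹' (A ×ˢ B) ∩ (C ×ˢ D)) =
        μ.real ((⇑e)^[k] ⁻¹' A ∩ C) * μ.real ((⇑e)^[k] ⁻¹' B ∩ D) := by
    intro k A B C D
    rw [Prod.map_iterate, ← measureReal_prod_prod]
    congr 1
    ext ⟨x, y⟩
    simp only [Set.mem_inter_iff, Set.mem_preimage, Set.mem_prod, Prod.map_apply]
    tauto
  -- Step 1
  have hmix : ∀ E F : Set (X × X), MeasurableSet E → MeasurableSet F →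
      Tendsto (fun j : ℕ => |(μ.prod μ).real ((Prod.map e e)^[n j] ⁻¹' E ∩ F) -
        (μ.prod μ).real E * (μ.prod μ).real F|) atTop (𝓝 0) := by
    intro E F hE hF
    have := ext_pi (μ.prod μ) (fun j => (Prod.map e e)^[n j]) (fun j => hSmp.iterate _)
      (fun j => {j}) (Set.image2 (· ×ˢ ·) {s : Set X | MeasurableSet s} {t : Set X | MeasurableSet t})
      isPiSystem_prod generateFrom_prod.symm ?_ E F hE hF
    · simpa using this
    · rintro _ ⟨A, hA, B, hB, rfl⟩ _ ⟨C, hC, D, hD, rfl⟩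
      have h1 := (h A C hA hC).mul (h B D hB hD)
      have h2 : Tendsto (fun j : ℕ => |(μ.real ((⇑e)^[n j] ⁻¹' A ∩ C) *
          μ.real ((⇑e)^[n j] ⁻¹' B ∩ D)) - (μ.real A * μ.real B) * (μ.real C * μ.real D)|) atTop
          (𝓝 |(μ.real A * μ.real C * (μ.real B * μ.real D)) -
            (μ.real A * μ.real B) * (μ.real C * μ.real D)|) := (h1.sub tendsto_const_nhds).abs
      have h3 : |(μ.real A * μ.real C * (μ.real B * μ.real D)) -
            (μ.real A * μ.real B) * (μ.real C * μ.real D)| = 0 := by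
        rw [abs_eq_zero]; ring
      rw [h3] at h2
      refine h2.congr ?_
      intro j
      simp only [Finset.card_singleton, Nat.cast_one, inv_one, Finset.sum_singleton, one_mul]
      rw [hrect, measureReal_prod_prod, measureReal_prod_prod]
  -- Step 2
  have herg : Ergodic (Prod.map e e) (μ.prod μ) := by
    refine ⟨hSmp, ⟨?_⟩⟩
    intro E hE hinv
    have hinv' : ∀ k : ℕ, (Prod.map e e)^[k] ⁻¹' E = E := by
      intro k
      induction k with
      | zero => rfl
      | succ k ih =>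
        rw [Function.iterate_succ, Set.preimage_comp, ih, hinv]
    have h1 := hmix E E hE hE
    have h2 : Tendsto (fun _ : ℕ => |(μ.prod μ).real E - (μ.prod μ).real E * (μ.prod μ).real E|)
        atTop (𝓝 0) := by
      refine h1.congr ?_
      intro j
      rw [hinv', Set.inter_self]
    have h3 := tendsto_nhds_unique h2 tendsto_const_nhds
    have h4 : (μ.prod μ).real E * (1 - (μ.prod μ).real E) = 0 := by
      have := abs_eq_zero.1 h3.symm
      linarith [this]
    rw [Filter.eventuallyConst_set']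
    rcases mul_eq_zero.1 h4 with h5 | h5
    · left
      rw [ae_eq_empty]
      exact (measureReal_eq_zero_iff).1 h5
    · right
      rw [ae_eq_univ, prob_compl_eq_zero_iff hE]
      have h6 : (μ.prod μ).real E = 1 := by linarith
      rw [measureReal_def] at h6
      exact (ENNReal.toReal_eq_one_iff _).1 h6
  -- Step 3
  intro A B hA hB
  set c : ℝ := μ.real A * μ.real B with hc
  set x : ℕ → ℝ := fun k => μ.real ((⇑e)^[k] ⁻¹' A ∩ B) with hx
  have hlin : Tendsto (fun N : ℕ => (N : ℝ)⁻¹ * ∑ k ∈ Finset.range N, x k) atTop (𝓝 c) := by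
    have := erg_avg (μ.prod μ) _ herg (A ×ˢ Set.univ) (B ×ˢ Set.univ)
      (hA.prod MeasurableSet.univ) (hB.prod MeasurableSet.univ)
    rw [measureReal_prod_prod, measureReal_prod_prod] at this
    simp only [probReal_univ, mul_one] at this
    refine this.congr ?_
    intro N
    congr 1
    refine Finset.sum_congr rfl ?_
    intro k _
    rw [hrect]
    simp [hx]
  have hsq : Tendsto (fun N : ℕ => (N : ℝ)⁻¹ * ∑ k ∈ Finset.range N, x k ^ 2) atTop
      (𝓝 (c ^ 2)) := by
    have := erg_avg (μ.prod μ) _ herg (A ×ˢ A) (B ×ˢ B) (hA.prod hA) (hB.prod hB)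
    rw [measureReal_prod_prod, measureReal_prod_prod] at this
    have e1 : μ.real A * μ.real A * (μ.real B * μ.real B) = c ^ 2 := by rw [hc]; ring
    rw [e1] at this
    refine this.congr ?_
    intro N
    congr 1
    refine Finset.sum_congr rfl ?_
    intro k _
    rw [hrect, pow_two]
  have hvar : Tendsto (fun N : ℕ => (N : ℝ)⁻¹ * ∑ k ∈ Finset.range N, |x k - c| ^ 2) atTop
      (𝓝 0) := by
    have h1 : Tendsto (fun N : ℕ => (N : ℝ)⁻¹ * ∑ k ∈ Finset.range N, x k ^ 2 -
        2 * c * ((N : ℝ)⁻¹ * ∑ k ∈ Finset.range N, x k) + c ^ 2) atTop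
        (𝓝 (c ^ 2 - 2 * c * c + c ^ 2)) :=
      (hsq.sub (hlin.const_mul (2 * c))).add tendsto_const_nhds
    have h2 : c ^ 2 - 2 * c * c + c ^ 2 = 0 := by ring
    rw [h2] at h1
    refine h1.congr' ?_
    filter_upwards [eventually_gt_atTop 0] with N hN
    have hN' : (N : ℝ) ≠ 0 := by positivity
    have h3 : ∑ k ∈ Finset.range N, |x k - c| ^ 2 =
        ∑ k ∈ Finset.range N, x k ^ 2 - 2 * c * ∑ k ∈ Finset.range N, x k + N * c ^ 2 := by
      rw [Finset.mul_sum, ← Finset.sum_sub_distrib]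
      have : (N : ℝ) * c ^ 2 = ∑ k ∈ Finset.range N, c ^ 2 := by simp
      rw [this, ← Finset.sum_add_distrib]
      refine Finset.sum_congr rfl ?_
      intro k _
      rw [sq_abs]; ring
    rw [h3]
    field_simp
  have hCS : ∀ N : ℕ, ((N : ℝ)⁻¹ * ∑ k ∈ Finset.range N, |x k - c|) ^ 2 ≤
      (N : ℝ)⁻¹ * ∑ k ∈ Finset.range N, |x k - c| ^ 2 := by
    intro N
    rcases Nat.eq_zero_or_pos N with rfl | hN
    · simp
    have h1 := sq_sum_le_card_mul_sum_sq (s := Finset.range N) (f := fun k => |x k - c|)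
    rw [Finset.card_range] at h1
    have hN' : (0 : ℝ) < N := by positivity
    rw [mul_pow]
    calc ((N : ℝ)⁻¹) ^ 2 * (∑ k ∈ Finset.range N, |x k - c|) ^ 2
        ≤ ((N : ℝ)⁻¹) ^ 2 * (N * ∑ k ∈ Finset.range N, |x k - c| ^ 2) := by
          apply mul_le_mul_of_nonneg_left h1; positivity
      _ = (N : ℝ)⁻¹ * ∑ k ∈ Finset.range N, |x k - c| ^ 2 := by
          field_simp
  have hsq0 : Tendsto (fun N : ℕ => ((N : ℝ)⁻¹ * ∑ k ∈ Finset.range N, |x k - c|) ^ 2) atTop
      (𝓝 0) :=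
    squeeze_zero (fun N => sq_nonneg _) hCS hvar
  have hfin := (Real.continuous_sqrt.tendsto 0).comp hsq0
  rw [Real.sqrt_zero] at hfin
  refine hfin.congr ?_
  intro N
  rw [Function.comp_apply, Real.sqrt_sq]
  positivity

theorem Win_mono {a b a' b' : ℕ} (ha : a ≤ a') (hb : b ≤ b') {E : Set (ℤ → ZMod 5)}
    (h : Win a b E) : Win a' b' E := by
  intro ω ω' hω
  apply h
  intro x h0 h1
  apply hω
  · have : (a : ℤ) ≤ a' := by exact_mod_cast ha
    linarith
  · have : (b : ℤ) ≤ b' := by exact_mod_cast hb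
    linarith

theorem Win_inter {a b : ℕ} {E F : Set (ℤ → ZMod 5)} (hE : Win a b E) (hF : Win a b F) :
    Win a b (E ∩ F) := by
  intro ω ω' h
  rw [Set.mem_inter_iff, Set.mem_inter_iff, hE ω ω' h, hF ω ω' h]

theorem Win_meas {a b : ℕ} {E : Set (ℤ → ZMod 5)} (h : Win a b E) : MeasurableSet E :=
  (Win_clopen h).isOpen.measurableSet

theorem Win_shift {a b : ℕ} {E : Set (ℤ → ZMod 5)} (h : Win a b E) (k : ℕ) :
    Win a (b + k) ((fun ω x => ω (x + k)) ⁻¹' E) := by
  intro ω ω' hω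
  apply h
  intro x h0 h1
  apply hω
  · have : (0 : ℤ) ≤ k := by positivity
    linarith
  · push_cast
    linarith

theorem win_pi : IsPiSystem {E : Set (ℤ → ZMod 5) | ∃ a b, Win a b E} := by
  rintro E ⟨a, b, hE⟩ F ⟨c, d, hF⟩ _
  exact ⟨max a c, max b d, Win_inter (Win_mono (le_max_left _ _) (le_max_left _ _) hE)
    (Win_mono (le_max_right _ _) (le_max_right _ _) hF)⟩

theorem win_gen : (MeasurableSpace.pi : MeasurableSpace (ℤ → ZMod 5)) =
    MeasurableSpace.generateFrom {E : Set (ℤ → ZMod 5) | ∃ a b, Win a b E} := by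
  apply le_antisymm
  · apply iSup_le
    intro x
    rintro s ⟨u, -, rfl⟩
    apply MeasurableSpace.measurableSet_generateFrom
    refine ⟨x.natAbs, x.natAbs, ?_⟩
    intro ω ω' hω
    have : ω x = ω' x := hω x (by omega) (by omega)
    show ω x ∈ u ↔ ω' x ∈ u
    rw [this]
  · apply MeasurableSpace.generateFrom_le
    rintro E ⟨a, b, hE⟩
    exact Win_meas hE

theorem n_growth (n : ℕ → ℕ) (hn : Good n) (j : ℕ) : n j ^ 3 ≤ n (j + 1) :=
  Nat.le_of_dvd (lt_of_lt_of_le (by norm_num) (hn.two (j + 1))) (hn.dvd j)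

theorem n_double (n : ℕ → ℕ) (hn : Good n) (j : ℕ) : 2 * n j ≤ n (j + 1) := by
  have h1 := n_growth n hn j
  have h2 := hn.two j
  have h3 : 2 * n j ≤ n j ^ 3 := by
    have : n j ^ 3 = n j * n j * n j := by ring
    nlinarith [Nat.mul_le_mul h2 h2]
  omega

theorem n_ge (n : ℕ → ℕ) (hn : Good n) (j : ℕ) : j ≤ n j := by
  induction j with
  | zero => exact Nat.zero_le _
  | succ j ih =>
    have h1 := n_double n hn j
    have h2 := hn.two j
    omega

/-- For every good sequence there is a weakly mixing shift-invariant measure on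
`ℤ → ZMod 5` which is rigid along multiples of `hh n j` up to `n j`. -/
theorem system (n : ℕ → ℕ) (hn : Good n) :
    ∃ P : Measure (ℤ → ZMod 5), IsProbabilityMeasure P ∧ MeasurePreserving sh P P ∧ WM P sh ∧
      ∀ j s : ℕ, hh n j ∣ s →
        P.real {ω | ω (s : ℤ) ≠ ω 0 + (s : ZMod 5)} ≤ 2 * (s : ℝ) / n j := by
  obtain ⟨P, hP, hinv, hest⟩ := limit_measure (fun j => 5 * hh n j)
    (fun j => Nat.mul_pos (by norm_num) (hh_pos n hn j)) (fun j => lab n j)
    (fun j t => lab_period n hn j t) n hn.two (n_double n hn)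
    (fun j a b E hE => fr_step n hn j a b E hE)
  refine ⟨P, hP, hinv, ?_, ?_⟩
  · -- weak mixing
    have hit : ∀ k : ℕ, MeasurePreserving ((⇑sh)^[k]) P P := fun k => hinv.iterate k
    have hmain : ∀ A B : Set (ℤ → ZMod 5), MeasurableSet A → MeasurableSet B →
        Tendsto (fun N : ℕ => ((({N} : Finset ℕ)).card : ℝ)⁻¹ *
          ∑ i ∈ ({N} : Finset ℕ), |P.real ((⇑sh)^[n i] ⁻¹' A ∩ B) - P.real A * P.real B|)
          atTop (𝓝 0) := by
      intro A B hA hB
      refine ext_pi P (fun i => (⇑sh)^[n i]) (fun i => hit _) (fun N => {N})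
        {E | ∃ a b, Win a b E} win_pi win_gen ?_ A B hA hB
      rintro A ⟨a0, b0, hA0⟩ B ⟨a1, b1, hB1⟩
      obtain ⟨a, b, hA, hB⟩ : ∃ a b, Win a b A ∧ Win a b B :=
        ⟨max a0 a1, max b0 b1, Win_mono (le_max_left _ _) (le_max_left _ _) hA0,
          Win_mono (le_max_right _ _) (le_max_right _ _) hB1⟩
      have hbound : ∀ j : ℕ, |P.real ((⇑sh)^[n j] ⁻¹' A ∩ B) - P.real A * P.real B| ≤
          (7 * ((a : ℝ) + b) + 8) / n j := by
        intro j
        have hposR : (0 : ℝ) < n j := by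
          have := hn.two j
          positivity
        have hset : (⇑sh)^[n j] ⁻¹' A = (fun ω x => ω (x + n j)) ⁻¹' A := by
          ext ω
          show (⇑sh)^[n j] ω ∈ A ↔ (fun x => ω (x + n j)) ∈ A
          have : (⇑sh)^[n j] ω = fun x => ω (x + n j) := by
            funext x
            exact sh_iterate _ _ _
          rw [this]
        rw [hset, Set.inter_comm]
        have h1 := fr_mix n hn j a b B A hB hA
        have hw : Win a (b + n j) (B ∩ (fun ω x => ω (x + n j)) ⁻¹' A) :=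
          Win_inter (Win_mono le_rfl (by omega) hB) (Win_shift hA (n j))
        have h2 := hest (j + 1) a (b + n j) _ hw
        have h3 := hest j a b A hA
        have h4 := hest j a b B hB
        have h5 : 2 * ((a : ℝ) + ((b + n j : ℕ) : ℝ)) / n (j + 1) ≤
            2 * ((a : ℝ) + b + 1) / n j := by
          have hg : (n j : ℝ) ^ 3 ≤ n (j + 1) := by exact_mod_cast n_growth n hn j
          have h2' : (2 : ℝ) ≤ n j := by exact_mod_cast hn.two j
          have hab : (0 : ℝ) ≤ (a : ℝ) + b := by positivity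
          push_cast
          calc 2 * ((a : ℝ) + (b + n j)) / n (j + 1) ≤ 2 * ((a : ℝ) + (b + n j)) / (n j : ℝ) ^ 3 := by
                apply div_le_div_of_nonneg_left (by positivity) (by positivity) hg
            _ ≤ 2 * ((a : ℝ) + b + 1) / n j := by
                rw [div_le_div_iff₀ (by positivity) hposR]
                have e1 : 2 * ((a : ℝ) + (b + n j)) ≤ 2 * ((a : ℝ) + b + 1) * (n j : ℝ) := by
                  nlinarith
                calc 2 * ((a : ℝ) + (b + n j)) * n j ≤ (2 * ((a : ℝ) + b + 1) * (n j : ℝ)) * n j :=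
                      mul_le_mul_of_nonneg_right e1 hposR.le
                  _ ≤ 2 * ((a : ℝ) + b + 1) * (n j : ℝ) ^ 3 := by
                      have : (n j : ℝ) * n j ≤ (n j : ℝ) ^ 3 := by nlinarith [mul_pos hposR hposR]
                      calc (2 * ((a : ℝ) + b + 1) * (n j : ℝ)) * n j =
                            (2 * ((a : ℝ) + b + 1)) * ((n j : ℝ) * n j) := by ring
                        _ ≤ _ := mul_le_mul_of_nonneg_left this (by positivity)
        have h6 : |fr (5 * hh n j) (lab n j) B * fr (5 * hh n j) (lab n j) A -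
            P.real A * P.real B| ≤ 2 * (2 * ((a : ℝ) + b) / n j) := by
          have hA0 : 0 ≤ P.real A := measureReal_nonneg
          have hA1 : P.real A ≤ 1 := measureReal_le_one
          have hf0 : 0 ≤ fr (5 * hh n j) (lab n j) B := by
            unfold fr avg
            apply div_nonneg _ (by positivity)
            exact Finset.sum_nonneg (fun t _ => ind_nonneg _ _)
          have hf1 : fr (5 * hh n j) (lab n j) B ≤ 1 := by
            unfold fr avg
            have hpos5 : (0 : ℝ) < ((5 * hh n j : ℕ) : ℝ) := by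
              have := hh_pos n hn j
              positivity
            rw [div_le_one hpos5]
            refine (Finset.sum_le_sum (fun t _ => ind_le_one _ _)).trans ?_
            simp
          have e : fr (5 * hh n j) (lab n j) B * fr (5 * hh n j) (lab n j) A -
              P.real A * P.real B = fr (5 * hh n j) (lab n j) B *
                (fr (5 * hh n j) (lab n j) A - P.real A) +
                P.real A * (fr (5 * hh n j) (lab n j) B - P.real B) := by ring
          rw [e]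
          refine (abs_add_le _ _).trans ?_
          rw [abs_mul, abs_mul, abs_of_nonneg hf0, abs_of_nonneg hA0, abs_sub_comm _ (P.real A),
            abs_sub_comm _ (P.real B)]
          have g1 := mul_le_mul hf1 h3 (abs_nonneg _) zero_le_one
          have g2 := mul_le_mul hA1 h4 (abs_nonneg _) zero_le_one
          linarith
        have t1 := abs_sub_le (P.real (B ∩ (fun ω x => ω (x + n j)) ⁻¹' A))
          (fr (5 * hh n (j + 1)) (lab n (j + 1)) (B ∩ (fun ω x => ω (x + n j)) ⁻¹' A))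
          (P.real A * P.real B)
        have t2 := abs_sub_le
          (fr (5 * hh n (j + 1)) (lab n (j + 1)) (B ∩ (fun ω x => ω (x + n j)) ⁻¹' A))
          (fr (5 * hh n j) (lab n j) B * fr (5 * hh n j) (lab n j) A)
          (P.real A * P.real B)
        have e9 : (7 * ((a : ℝ) + b) + 8) / n j = 2 * ((a : ℝ) + b + 1) / n j +
            ((a : ℝ) + b + 6) / n j + 2 * (2 * ((a : ℝ) + b) / n j) := by ring
        rw [e9]
        linarith
      have hlim : Tendsto (fun j : ℕ => (7 * ((a : ℝ) + b) + 8) / n j) atTop (𝓝 0) := by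
        apply Tendsto.div_atTop tendsto_const_nhds
        apply tendsto_natCast_atTop_atTop.comp
        exact tendsto_atTop_mono (n_ge n hn) tendsto_id
      have := squeeze_zero (fun j => abs_nonneg _) hbound hlim
      simpa using this
    apply wm_of_mix P sh hinv n
    intro A B hA hB
    have h1 := hmain A B hA hB
    simp only [Finset.card_singleton, Nat.cast_one, inv_one, one_mul, Finset.sum_singleton] at h1
    rw [tendsto_iff_norm_sub_tendsto_zero]
    simpa [Real.norm_eq_abs] using h1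
  · -- rigidity
    intro j s hs
    have hw : Win 0 s {ω : ℤ → ZMod 5 | ω (s : ℤ) ≠ ω 0 + (s : ZMod 5)} := by
      intro ω ω' hω
      have h0 : ω 0 = ω' 0 := hω 0 (by simp) (by positivity)
      have h1 : ω s = ω' s := hω s (by simp) le_rfl
      show ω (s : ℤ) ≠ ω 0 + (s : ZMod 5) ↔ ω' (s : ℤ) ≠ ω' 0 + (s : ZMod 5)
      rw [h0, h1]
    have h1 := hest j 0 s _ hw
    have h2 : fr (5 * hh n j) (lab n j) {ω : ℤ → ZMod 5 | ω (s : ℤ) ≠ ω 0 + (s : ZMod 5)} = 0 := by
      unfold fr avg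
      rw [Finset.sum_eq_zero, zero_div]
      intro t _
      apply Set.indicator_of_notMem
      intro h3
      apply h3
      obtain ⟨m, rfl⟩ := hs
      show lab n j (t + ((hh n j * m : ℕ) : ℤ)) = lab n j (t + 0) + ((hh n j * m : ℕ) : ZMod 5)
      have := lab_add n hn j t m
      rw [add_zero]
      push_cast at this ⊢
      exact this
    rw [h2, sub_zero] at h1
    calc P.real _ ≤ |P.real _| := le_abs_self _
      _ ≤ 2 * (((0 : ℕ) : ℝ) + s) / n j := h1
      _ = 2 * (s : ℝ) / n j := by simp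

/-- `K * 16 ^ i` -/
def G (i : ℕ) : ℕ := 13 * 16 ^ i

theorem G_succ (i : ℕ) : G (i + 1) = 16 * G i := by unfold G; ring

theorem G_pos (i : ℕ) : 13 ≤ G i := by
  unfold G
  have : 1 ≤ 16 ^ i := Nat.one_le_pow _ _ (by norm_num)
  omega

theorem good_pow (β : ℕ) (hβ : 2 ≤ β) (hc : Nat.Coprime β 5) (p : ℕ) :
    Good (fun j => β ^ G (2 * j + p)) where
  two j := by
    have h1 := G_pos (2 * j + p)
    calc 2 ≤ β := hβ
      _ = β ^ 1 := (pow_one β).symm
      _ ≤ β ^ G (2 * j + p) := Nat.pow_le_pow_right (by omega) (by omega)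
  cop j := Nat.Coprime.pow_left _ hc
  dvd j := by
    show (β ^ G (2 * j + p)) ^ 3 ∣ β ^ G (2 * (j + 1) + p)
    rw [← pow_mul]
    apply pow_dvd_pow
    have e : 2 * (j + 1) + p = (2 * j + p) + 1 + 1 := by ring
    rw [e, G_succ, G_succ]
    omega

/-- every exponent is good for one of the two families -/
theorem cover (m : ℕ) : ∃ p < 2, ∃ j : ℕ, 5 * m + 13 ≤ G (2 * j + p) ∧
    ∀ β : ℕ, hh (fun j => β ^ G (2 * j + p)) j ∣ β ^ m := by
  by_cases h0 : m < 39
  · refine ⟨1, by norm_num, 0, ?_, ?_⟩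
    · show 5 * m + 13 ≤ 13 * 16 ^ (2 * 0 + 1)
      norm_num
      omega
    · intro β
      exact one_dvd _
  · push Not at h0
    -- find i with 3 G i ≤ m < 3 G (i+1)
    have hex : ∃ i, m < 3 * G i := by
      refine ⟨m, ?_⟩
      unfold G
      have : m < 16 ^ m := Nat.lt_pow_self (by norm_num)
      omega
    classical
    obtain ⟨i, hi, hmin⟩ : ∃ i, m < 3 * G i ∧ ∀ k < i, ¬ (m < 3 * G k) :=
      ⟨Nat.find hex, Nat.find_spec hex, fun k hk => Nat.find_min hex hk⟩
    have hi0 : i ≠ 0 := by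
      rintro rfl
      have : G 0 = 13 := rfl
      omega
    obtain ⟨k, rfl⟩ := Nat.exists_eq_succ_of_ne_zero hi0
    have h3 : 3 * G k ≤ m := by
      have := hmin k (Nat.lt_succ_self k)
      omega
    refine ⟨k % 2, Nat.mod_lt _ (by norm_num), k / 2 + 1, ?_, ?_⟩
    · have e : 2 * (k / 2 + 1) + k % 2 = k + 1 + 1 := by omega
      rw [e, G_succ (k + 1)]
      have := G_pos (k + 1)
      have hi' : m < 3 * G (k + 1) := hi
      omega
    · intro β
      show (β ^ G (2 * (k / 2) + k % 2)) ^ 3 ∣ β ^ m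
      have e : 2 * (k / 2) + k % 2 = k := by omega
      rw [e, ← pow_mul]
      apply pow_dvd_pow
      omega

theorem assemble_prod (X : Fin 4 → Type) [∀ l, MeasurableSpace (X l)] (μ : ∀ l, Measure (X l))
    [∀ l, IsProbabilityMeasure (μ l)] (e : ∀ l, X l ≃ᵐ X l)
    (he : ∀ l, MeasurePreserving (e l) (μ l) (μ l)) (hwm : ∀ l, WM (μ l) (e l)) :
    ∃ (Y : Type) (_ : MeasurableSpace Y) (ν : Measure Y) (_ : IsProbabilityMeasure ν)
      (f : Y ≃ᵐ Y) (p : ∀ l, Y → X l), MeasurePreserving f ν ν ∧ WM ν f ∧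
      (∀ l, MeasurePreserving (p l) ν (μ l)) ∧ (∀ l y, p l (f y) = e l (p l y)) ∧
      ∀ S : ∀ l, Set (X l), ν {y | ∀ l, p l y ∈ S l} = ∏ l, μ l (S l) := by
  refine ⟨X 0 × (X 1 × (X 2 × X 3)), inferInstance,
    (μ 0).prod ((μ 1).prod ((μ 2).prod (μ 3))), inferInstance,
    (e 0).prodCongr ((e 1).prodCongr ((e 2).prodCongr (e 3))),
    fun l => match l with
      | 0 => fun y => y.1
      | 1 => fun y => y.2.1
      | 2 => fun y => y.2.2.1
      | 3 => fun y => y.2.2.2, ?_, ?_, ?_, ?_, ?_⟩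
  · exact (he 0).prod ((he 1).prod ((he 2).prod (he 3)))
  · have h23 := wm_prod (μ 2) (μ 3) (e 2) (e 3) (he 2) (he 3) (hwm 2) (hwm 3)
    have m23 : MeasurePreserving ((e 2).prodCongr (e 3)) ((μ 2).prod (μ 3)) ((μ 2).prod (μ 3)) :=
      (he 2).prod (he 3)
    have h123 := wm_prod (μ 1) ((μ 2).prod (μ 3)) (e 1) ((e 2).prodCongr (e 3)) (he 1) m23
      (hwm 1) h23
    have m123 : MeasurePreserving ((e 1).prodCongr ((e 2).prodCongr (e 3)))
      ((μ 1).prod ((μ 2).prod (μ 3))) ((μ 1).prod ((μ 2).prod (μ 3))) := (he 1).prod m23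
    exact wm_prod (μ 0) _ (e 0) _ (he 0) m123 (hwm 0) h123
  · intro l
    match l with
    | 0 => exact measurePreserving_fst
    | 1 => exact measurePreserving_fst.comp measurePreserving_snd
    | 2 => exact measurePreserving_fst.comp (measurePreserving_snd.comp measurePreserving_snd)
    | 3 => exact measurePreserving_snd.comp (measurePreserving_snd.comp measurePreserving_snd)
  · intro l y
    match l with
    | 0 => rfl
    | 1 => rfl
    | 2 => rfl
    | 3 => rfl
  · intro S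
    have : {y : X 0 × (X 1 × (X 2 × X 3)) | ∀ l : Fin 4, (match l with
      | 0 => fun y : X 0 × (X 1 × (X 2 × X 3)) => y.1
      | 1 => fun y => y.2.1
      | 2 => fun y => y.2.2.1
      | 3 => fun y => y.2.2.2 : (X 0 × (X 1 × (X 2 × X 3))) → X l) y ∈ S l} =
        (S 0) ×ˢ ((S 1) ×ˢ ((S 2) ×ˢ (S 3))) := by
      ext y
      constructor
      · intro h
        exact ⟨h 0, h 1, h 2, h 3⟩
      · rintro ⟨h0, h1, h2, h3⟩ l
        match l with
        | 0 => exact h0
        | 1 => exact h1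
        | 2 => exact h2
        | 3 => exact h3
    rw [this]
    simp only [Measure.prod_prod, Fin.prod_univ_four]
    ring

theorem assemble (X : Fin 4 → Type) [∀ l, MeasurableSpace (X l)] (μ : ∀ l, Measure (X l))
    [∀ l, IsProbabilityMeasure (μ l)] (e : ∀ l, X l ≃ᵐ X l)
    (he : ∀ l, MeasurePreserving (e l) (μ l) (μ l)) (hwm : ∀ l, WM (μ l) (e l))
    (r : ∀ l, X l → ZMod 5) (hr : ∀ l, Measurable (r l))
    (c : ℕ → ℕ → Fin 4)
    (hb : ∀ n k, 1 ≤ n → 1 ≤ k → (μ (c n k)).real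
      {x | r (c n k) ((⇑(e (c n k)))^[2 ^ n * 3 ^ k] x) ≠
        r (c n k) x + ((2 ^ n * 3 ^ k : ℕ) : ZMod 5)} ≤ (1 / 2 ^ 12) * (1 / 2) ^ n * (1 / 2) ^ k) :
    ∃ (Y : Type) (_ : MeasurableSpace Y) (ν : Measure Y) (_ : IsProbabilityMeasure ν)
      (f : Y ≃ᵐ Y), MeasurePreserving f ν ν ∧ WM ν f ∧
      ∃ A : Set Y, MeasurableSet A ∧ 0 < ν A ∧
        ∀ n k : ℕ, 1 ≤ n → 1 ≤ k → ν (A ∩ (⇑f)^[2 ^ n * 3 ^ k] ⁻¹' A) = 0 := by
  obtain ⟨Y, mY, ν, hν, f, p, hf, hwmf, hp, hpf, hrect⟩ := assemble_prod X μ e he hwm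
  refine ⟨Y, mY, ν, hν, f, hf, hwmf, ?_⟩
  have hiter : ∀ l m y, p l ((⇑f)^[m] y) = (⇑(e l))^[m] (p l y) := by
    intro l m
    induction m with
    | zero => intro y; rfl
    | succ m ih => intro y; rw [Function.iterate_succ_apply, Function.iterate_succ_apply, ih,
        hpf]
  -- pigeonhole
  have hpig : ∀ l, ∃ d : ZMod 5, (1 / 5 : ℝ) ≤ (μ l).real (r l ⁻¹' {d}) := by
    intro l
    by_contra hcon
    push Not at hcon
    have hsum : ∑ d : ZMod 5, (μ l).real (r l ⁻¹' {d}) = 1 := by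
      have h1 := sum_measureReal_preimage_singleton (μ := μ l) (f := r l) (Finset.univ)
        (fun y _ => (hr l) (measurableSet_singleton y))
      rw [h1]
      simp
    have hlt : ∑ d : ZMod 5, (μ l).real (r l ⁻¹' {d}) < ∑ d : ZMod 5, (1 / 5 : ℝ) :=
      Finset.sum_lt_sum_of_nonempty Finset.univ_nonempty (fun d _ => hcon d)
    rw [hsum] at hlt
    simp [ZMod.card] at hlt
  choose d hd using hpig
  set A0 : Set Y := {y | ∀ l, p l y ∈ r l ⁻¹' {d l}} with hA0
  have hA0m : MeasurableSet A0 := by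
    have : A0 = ⋂ l, p l ⁻¹' (r l ⁻¹' {d l}) := by
      ext y; simp [hA0]
    rw [this]
    exact MeasurableSet.iInter fun l => (hp l).measurable ((hr l) (measurableSet_singleton _))
  have hA0ν : (1 / 625 : ℝ) ≤ ν.real A0 := by
    have h1 : ν.real A0 = ∏ l, (μ l).real (r l ⁻¹' {d l}) := by
      unfold Measure.real
      rw [hA0, hrect, ENNReal.toReal_prod]
    rw [h1]
    calc (1 / 625 : ℝ) = ∏ _l : Fin 4, (1 / 5 : ℝ) := by norm_num
      _ ≤ _ := Finset.prod_le_prod (fun _ _ => by norm_num) (fun l _ => hd l)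
  let Bad : ℕ × ℕ → Set Y := fun q => p (c (q.1 + 1) (q.2 + 1)) ⁻¹'
    {x | r (c (q.1 + 1) (q.2 + 1)) ((⇑(e (c (q.1 + 1) (q.2 + 1))))^[2 ^ (q.1 + 1) * 3 ^ (q.2 + 1)] x) ≠
        r (c (q.1 + 1) (q.2 + 1)) x + ((2 ^ (q.1 + 1) * 3 ^ (q.2 + 1) : ℕ) : ZMod 5)}
  have hbadset : ∀ l m, MeasurableSet {x | r l ((⇑(e l))^[m] x) ≠ r l x + ((m : ℕ) : ZMod 5)} := by
    intro l m
    have h1 : Measurable fun x => r l ((⇑(e l))^[m] x) :=
      (hr l).comp ((e l).measurable.iterate m)
    have h2 : Measurable fun x => r l x + ((m : ℕ) : ZMod 5) :=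
      (measurable_of_countable (fun z : ZMod 5 => z + ((m : ℕ) : ZMod 5))).comp (hr l)
    exact (measurableSet_eq_fun h1 h2).compl
  have hBadm : ∀ q, MeasurableSet (Bad q) := fun q =>
    (hp _).measurable (hbadset _ _)
  have hBadν : ∀ q, ν (Bad q) ≤ ENNReal.ofReal ((1 / 2 ^ 12) * ((1 / 2) ^ q.1 * (1 / 2) ^ q.2) / 4) := by
    intro q
    have h1 : ν (Bad q) = μ (c (q.1 + 1) (q.2 + 1))
      {x | r (c (q.1 + 1) (q.2 + 1)) ((⇑(e (c (q.1 + 1) (q.2 + 1))))^[2 ^ (q.1 + 1) * 3 ^ (q.2 + 1)] x) ≠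
        r (c (q.1 + 1) (q.2 + 1)) x + ((2 ^ (q.1 + 1) * 3 ^ (q.2 + 1) : ℕ) : ZMod 5)} :=
      (hp _).measure_preimage (hbadset _ _).nullMeasurableSet
    rw [h1, ← ofReal_measureReal]
    apply ENNReal.ofReal_le_ofReal
    refine (hb (q.1 + 1) (q.2 + 1) (by omega) (by omega)).trans (le_of_eq ?_)
    ring
  have hUnion : ν (⋃ q, Bad q) ≤ ENNReal.ofReal (1 / 2 ^ 12) := by
    refine (measure_iUnion_le _).trans ((ENNReal.tsum_le_tsum hBadν).trans ?_)
    have hs : HasSum (fun q : ℕ × ℕ => ((1 / 2 ^ 12) * ((1 / 2 : ℝ) ^ q.1 * (1 / 2) ^ q.2) / 4))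
        (1 / 2 ^ 12) := by
      have h0 : HasSum (fun n : ℕ => (1 / 2 : ℝ) ^ n) 2 := hasSum_geometric_two
      have h1 := h0.mul h0 (summable_geometric_two.mul_of_nonneg summable_geometric_two
        (fun n => by positivity) (fun n => by positivity))
      have h2 := (h1.mul_left (1 / 2 ^ 12)).div_const 4
      have h3 : (1 / 2 ^ 12 * (2 * 2) / 4 : ℝ) = 1 / 2 ^ 12 := by norm_num
      rw [h3] at h2
      exact h2
    rw [← ENNReal.ofReal_tsum_of_nonneg (fun q => by positivity) hs.summable, hs.tsum_eq]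
  refine ⟨A0 \ ⋃ q, Bad q, hA0m.diff (MeasurableSet.iUnion hBadm), ?_, ?_⟩
  · have h1 : ν (⋃ q, Bad q) < ν A0 := by
      refine hUnion.trans_lt ?_
      rw [← ofReal_measureReal (μ := ν) (s := A0)]
      refine (ENNReal.ofReal_lt_ofReal_iff (by linarith)).2 (lt_of_lt_of_le ?_ hA0ν)
      norm_num
    have h2 := le_measure_sdiff (μ := ν) (s₁ := A0) (s₂ := ⋃ q, Bad q)
    exact lt_of_lt_of_le (tsub_pos_of_lt h1) h2
  · intro n k hn hk
    have hempty : (A0 \ ⋃ q, Bad q) ∩ (⇑f)^[2 ^ n * 3 ^ k] ⁻¹' (A0 \ ⋃ q, Bad q) = ∅ := by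
      rw [Set.eq_empty_iff_forall_notMem]
      rintro y ⟨⟨hy0, hyB⟩, hfy0, -⟩
      obtain ⟨n', rfl⟩ : ∃ n', n = n' + 1 := ⟨n - 1, by omega⟩
      obtain ⟨k', rfl⟩ : ∃ k', k = k' + 1 := ⟨k - 1, by omega⟩
      have hnb : y ∉ Bad (n', k') := fun h => hyB (Set.mem_iUnion.2 ⟨_, h⟩)
      simp only [Bad, Set.mem_preimage, Set.mem_ofPred_eq, not_not] at hnb
      have h1 := hy0 (c (n' + 1) (k' + 1))
      have h2 := hfy0 (c (n' + 1) (k' + 1))
      rw [hiter] at h2
      simp only [Set.mem_preimage, Set.mem_singleton_iff] at h1 h2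
      rw [h2, h1] at hnb
      have h3 : ((2 ^ (n' + 1) * 3 ^ (k' + 1) : ℕ) : ZMod 5) = 0 := by
        have := hnb.symm
        simpa using this
      rw [ZMod.natCast_eq_zero_iff] at h3
      have h5 : Nat.Prime 5 := by norm_num
      rcases (Nat.Prime.dvd_mul h5).1 h3 with h | h
      · have := (Nat.prime_dvd_prime_iff_eq h5 Nat.prime_two).1 (h5.dvd_of_dvd_pow h)
        omega
      · have := (Nat.prime_dvd_prime_iff_eq h5 Nat.prime_three).1 (h5.dvd_of_dvd_pow h)
        omega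
    rw [hempty]
    simp

theorem sys_bound (β : ℕ) (hβ : 2 ≤ β) (hβ3 : β ≤ 3) (p j m s : ℕ) (P : Measure (ℤ → ZMod 5))
    (hP : ∀ j s : ℕ, hh (fun j => β ^ G (2 * j + p)) j ∣ s →
        P.real {ω | ω (s : ℤ) ≠ ω 0 + (s : ZMod 5)} ≤ 2 * (s : ℝ) / ((β ^ G (2 * j + p) : ℕ) : ℝ))
    (h1 : 5 * m + 13 ≤ G (2 * j + p)) (h2 : ∀ β : ℕ, hh (fun j => β ^ G (2 * j + p)) j ∣ β ^ m)
    (hs : β ^ m ∣ s) (hs2 : s ≤ β ^ (3 * m)) :
    P.real {ω | ω (s : ℤ) ≠ ω 0 + (s : ZMod 5)} ≤ (1 / 2 ^ 12) * (1 / 2) ^ m * (1 / 2) ^ m := by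
  refine (hP j s ((h2 β).trans hs)).trans ?_
  have hβR : (2 : ℝ) ≤ β := by exact_mod_cast hβ
  have hpow : (β : ℝ) ^ (5 * m + 13) ≤ ((β ^ G (2 * j + p) : ℕ) : ℝ) := by
    push_cast
    exact pow_le_pow_right₀ (by linarith) h1
  have hsR : (s : ℝ) ≤ (β : ℝ) ^ (3 * m) := by exact_mod_cast hs2
  have hb0 : (0 : ℝ) < β := by linarith
  calc 2 * (s : ℝ) / ((β ^ G (2 * j + p) : ℕ) : ℝ) ≤ 2 * (s : ℝ) / (β : ℝ) ^ (5 * m + 13) :=
        div_le_div_of_nonneg_left (by positivity) (by positivity) hpow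
    _ ≤ 2 * (β : ℝ) ^ (3 * m) / (β : ℝ) ^ (5 * m + 13) := by
        apply div_le_div_of_nonneg_right _ (by positivity)
        linarith
    _ = 2 / (β : ℝ) ^ (2 * m + 13) := by
        have e : 5 * m + 13 = 3 * m + (2 * m + 13) := by ring
        rw [e, pow_add (β : ℝ) (3 * m) (2 * m + 13)]
        have : (β : ℝ) ^ (3 * m) ≠ 0 := by positivity
        have : (β : ℝ) ^ (2 * m + 13) ≠ 0 := by positivity
        field_simp
    _ ≤ 2 / (2 : ℝ) ^ (2 * m + 13) := by
        apply div_le_div_of_nonneg_left (by norm_num) (by positivity)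
        exact pow_le_pow_left₀ (by norm_num) hβR _
    _ = (1 / 2 ^ 12) * (1 / 2) ^ m * (1 / 2) ^ m := by
        rw [pow_add, two_mul, pow_add, one_div_pow]
        have : (2 : ℝ) ^ m ≠ 0 := by positivity
        field_simp

theorem bound_mono (n k m : ℕ) (hn : n ≤ m) (hk : k ≤ m) :
    (1 / 2 ^ 12 : ℝ) * (1 / 2) ^ m * (1 / 2) ^ m ≤ (1 / 2 ^ 12) * (1 / 2) ^ n * (1 / 2) ^ k := by
  have h1 : (1 / 2 : ℝ) ^ m ≤ (1 / 2) ^ n := pow_le_pow_of_le_one (by norm_num) (by norm_num) hn
  have h2 : (1 / 2 : ℝ) ^ m ≤ (1 / 2) ^ k := pow_le_pow_of_le_one (by norm_num) (by norm_num) hk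
  apply mul_le_mul _ h2 (by positivity) (by positivity)
  exact mul_le_mul_of_nonneg_left h1 (by norm_num)

/-- There are an invertible weakly mixing system and a set of positive measure none of whose
translates by `2 ^ n * 3 ^ k` (`n, k ≥ 1`) meets it. -/
theorem counterexample :
    ∃ (Y : Type) (_ : MeasurableSpace Y) (ν : Measure Y) (_ : IsProbabilityMeasure ν)
      (f : Y ≃ᵐ Y), MeasurePreserving f ν ν ∧ WM ν f ∧
      ∃ A : Set Y, MeasurableSet A ∧ 0 < ν A ∧
        ∀ n k : ℕ, 1 ≤ n → 1 ≤ k → ν (A ∩ (⇑f)^[2 ^ n * 3 ^ k] ⁻¹' A) = 0 := by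
  classical
  have hbase : ∀ l : Fin 4, 2 ≤ 2 + l.val / 2 ∧ 2 + l.val / 2 ≤ 3 ∧
      Nat.Coprime (2 + l.val / 2) 5 := by decide
  choose P hP hinv hwm hrig using fun l : Fin 4 =>
    system (fun j => (2 + l.val / 2) ^ G (2 * j + l.val % 2))
      (good_pow (2 + l.val / 2) (hbase l).1 (hbase l).2.2 (l.val % 2))
  -- choice of the system
  have hch : ∀ n k : ℕ, ∃ l : Fin 4, 1 ≤ n → 1 ≤ k →
      (P l).real {ω | ω ((2 ^ n * 3 ^ k : ℕ) : ℤ) ≠ ω 0 + ((2 ^ n * 3 ^ k : ℕ) : ZMod 5)} ≤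
        (1 / 2 ^ 12) * (1 / 2) ^ n * (1 / 2) ^ k := by
    intro n k
    rcases le_total k n with hkn | hnk
    · -- base 2
      obtain ⟨p, hp, j, h1, h2⟩ := cover n
      have hl2 : p / 2 = 0 := by omega
      have hl3 : p % 2 = p := by omega
      refine ⟨⟨p, by omega⟩, fun _ _ => ?_⟩
      have hr := hrig ⟨p, by omega⟩
      simp only [hl2, hl3, add_zero] at hr
      refine (sys_bound 2 le_rfl (by norm_num) p j n _ _ hr h1 h2 (dvd_mul_right _ _) ?_).trans
        (bound_mono n k n le_rfl hkn)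
      calc 2 ^ n * 3 ^ k ≤ 2 ^ n * 4 ^ k := Nat.mul_le_mul_left _ (Nat.pow_le_pow_left (by norm_num) _)
        _ = 2 ^ (n + 2 * k) := by rw [pow_add, pow_mul]; norm_num
        _ ≤ 2 ^ (3 * n) := Nat.pow_le_pow_right (by norm_num) (by omega)
    · -- base 3
      obtain ⟨p, hp, j, h1, h2⟩ := cover k
      have hl2 : (p + 2) / 2 = 1 := by omega
      have hl3 : (p + 2) % 2 = p := by omega
      refine ⟨⟨p + 2, by omega⟩, fun _ _ => ?_⟩
      have hr := hrig ⟨p + 2, by omega⟩
      simp only [hl2, hl3] at hr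
      refine (sys_bound 3 (by norm_num) le_rfl p j k _ _ hr h1 h2 (dvd_mul_left _ _) ?_).trans
        (bound_mono n k k hnk le_rfl)
      calc 2 ^ n * 3 ^ k ≤ 3 ^ n * 3 ^ k := Nat.mul_le_mul_right _ (Nat.pow_le_pow_left (by norm_num) _)
        _ = 3 ^ (n + k) := by rw [pow_add]
        _ ≤ 3 ^ (3 * k) := Nat.pow_le_pow_right (by norm_num) (by omega)
  choose c hc using hch
  refine assemble (fun _ => ℤ → ZMod 5) P (fun _ => sh) hinv hwm (fun _ ω => ω 0)
    (fun _ => measurable_pi_apply 0) c ?_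
  intro n k hn hk
  have := hc n k hn hk
  have hset : {x : ℤ → ZMod 5 | (fun ω : ℤ → ZMod 5 => ω 0) ((⇑sh)^[2 ^ n * 3 ^ k] x) ≠
        (fun ω : ℤ → ZMod 5 => ω 0) x + ((2 ^ n * 3 ^ k : ℕ) : ZMod 5)} =
      {ω | ω ((2 ^ n * 3 ^ k : ℕ) : ℤ) ≠ ω 0 + ((2 ^ n * 3 ^ k : ℕ) : ZMod 5)} := by
    ext ω
    show ((⇑sh)^[2 ^ n * 3 ^ k] ω 0 ≠ ω 0 + ((2 ^ n * 3 ^ k : ℕ) : ZMod 5)) ↔ _
    rw [sh_iterate, zero_add]
    rfl
  rw [hset]
  exact this

end Pool.Agent.Helper765.F2c841
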